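import Pool.Agent.Run7.h72.WF.Main

/-!
Weighted complete intersections with pairwise coprime weights, such that the equations in which pure
powers of several variables of weight `> 1` are used have large degrees.
-/

set_option autoImplicit false

namespace Pool.Agent.Run7.h72.WF

open Finset MvPolynomial Pool.Agent.Run7.h277.WF

variable {N : ℕ}

/-- what is left of the degree `d j` after the weights of its variables -/
def excess {c : ℕ} {a : Fin N → ℕ} (d : Fin c → ℕ) (J : {i // 1 < a i} → Fin c) (j : Fin c) : ℤ :=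
  (d j : ℤ) - 1 - ∑ r with J r = j, ((a r.1 : ℤ) - 1)

/-- the degrees and the exponents of the pure powers -/
theorem setup2 {c : ℕ} {a : Fin N → ℕ} (ha : ∀ i, 0 < a i)
    (hcop : ∀ i i', i ≠ i' → Nat.Coprime (a i) (a i')) {d : Fin c → ℕ} (hd : ∀ j, 0 < d j)
    {f : Fin c → MvPolynomial (Fin N) ℂ} (hf : ∀ j, IsWeightedHomogeneous a (f j) (d j))
    (J : {i // 1 < a i} → Fin c)
    (hpure : ∀ i, eval (Pi.single i.1 1 : Fin N → ℂ) (f (J i)) ≠ 0) {e : ℕ}
    (he : ∑ j, d j + N + 1 ≤ e + ∑ i, a i + c) :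
    ∃ D M : Fin N → ℕ, (∀ i, ¬ 1 < a i → D i = 1) ∧ (∀ i (hi : 1 < a i), D i = d (J ⟨i, hi⟩)) ∧
      (∀ i, M i * a i = D i ∧ ∀ hi : 1 < a i,
        (Finsupp.single i (M i) : Fin N →₀ ℕ) ∈ (f (J ⟨i, hi⟩)).support) ∧
      (∀ i, 0 < D i) ∧ (∀ i, 0 < M i) ∧ (∀ i, a i ≤ D i) ∧ (∀ j, 0 ≤ excess d J j) ∧
      ∑ j, excess d J j + 1 ≤ e ∧
      (∀ i (hi : 1 < a i), 2 * a i ≤ D i → (a i : ℤ) - 1 ≤ excess d J (J ⟨i, hi⟩)) := by
  classical
  obtain ⟨D, hD⟩ : ∃ D : Fin N → ℕ, ∀ i, D i = if h : 1 < a i then d (J ⟨i, h⟩) else 1 :=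
    ⟨_, fun _ => rfl⟩
  have hD1 : ∀ i, ¬ 1 < a i → D i = 1 := fun i hi => by rw [hD, dif_neg hi]
  have hD2 : ∀ i (hi : 1 < a i), D i = d (J ⟨i, hi⟩) := fun i hi => by rw [hD, dif_pos hi]
  have hpow : ∀ i (hi : 1 < a i), ∃ M : ℕ,
      (Finsupp.single i M : Fin N →₀ ℕ) ∈ (f (J ⟨i, hi⟩)).support ∧ M * a i = d (J ⟨i, hi⟩) := by
    intro i hi
    obtain ⟨α, hα, hαv⟩ := exists_monomial (hpure ⟨i, hi⟩)
    have h1 : α = Finsupp.single i (α i) := by
      ext l
      by_cases hl : l = i
      · subst hl; simp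
      · rw [Finsupp.single_eq_of_ne hl]
        by_contra hcon
        exact hαv l hcon (by rw [Pi.single_eq_of_ne hl])
    refine ⟨α i, h1 ▸ hα, ?_⟩
    have h2 := weight_eq (hf (J ⟨i, hi⟩)) hα
    rw [Finset.sum_eq_single i] at h2
    · exact h2
    · intro l _ hl
      have : α l = 0 := by
        rw [h1, Finsupp.single_eq_of_ne hl]
      rw [this, zero_mul]
    · intro h; exact absurd (Finset.mem_univ i) h
  obtain ⟨M, hM⟩ : ∃ M : Fin N → ℕ, ∀ i, M i * a i = D i ∧ ∀ hi : 1 < a i,
      (Finsupp.single i (M i) : Fin N →₀ ℕ) ∈ (f (J ⟨i, hi⟩)).support := by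
    have h1 : ∀ i, ∃ M : ℕ, M * a i = D i ∧ ∀ hi : 1 < a i,
        (Finsupp.single i M : Fin N →₀ ℕ) ∈ (f (J ⟨i, hi⟩)).support := by
      intro i
      by_cases hi : 1 < a i
      · obtain ⟨M, h1, h2⟩ := hpow i hi
        exact ⟨M, by rw [h2, hD2 i hi], fun _ => h1⟩
      · refine ⟨1, ?_, fun h => absurd h hi⟩
        have := ha i
        rw [hD1 i hi]
        omega
    choose M hM using h1
    exact ⟨M, hM⟩
  have hDpos : ∀ i, 0 < D i := by
    intro i
    by_cases hi : 1 < a i
    · rw [hD2 i hi]; exact hd _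
    · rw [hD1 i hi]; exact Nat.one_pos
  have hMpos : ∀ i, 0 < M i := by
    intro i
    rcases Nat.eq_zero_or_pos (M i) with h | h
    · have h1 := (hM i).1
      rw [h, zero_mul] at h1
      have := hDpos i
      omega
    · exact h
  have haD : ∀ i, a i ≤ D i := fun i => by
    rw [← (hM i).1]
    exact Nat.le_mul_of_pos_left _ (hMpos i)
  -- the classes
  have ha' : ∀ r : {i // 1 < a i}, 0 < a r.1 := fun r => ha r.1
  have hcop' : ∀ r r' : {i // 1 < a i}, r ≠ r' → Nat.Coprime (a r.1) (a r'.1) := fun r r' h =>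
    hcop _ _ fun h' => h (Subtype.ext h')
  have hdvd : ∀ (j : Fin c) (B : Finset {i // 1 < a i}), (∀ r ∈ B, J r = j) →
      ∏ r ∈ B, a r.1 ∣ d j := by
    intro j B hB
    refine prod_dvd (σ := {i // 1 < a i}) (a := fun r => a r.1) hcop' B fun r hr => ?_
    rw [← hB r hr, ← hD2 r.1 r.2, ← (hM r.1).1]
    exact Dvd.intro_left _ rfl
  have hbr0 : ∀ j, 0 ≤ excess d J j := by
    intro j
    have h1 := prod_ge (σ := {i // 1 < a i}) (a := fun r => a r.1) ha'
      (Finset.univ.filter fun r => J r = j)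
    have h2 := Nat.le_of_dvd (hd j) (hdvd j (Finset.univ.filter fun r => J r = j)
      (fun r hr => (Finset.mem_filter.1 hr).2))
    have h3 : ((∏ r with J r = j, a r.1 : ℕ) : ℤ) ≤ d j := by exact_mod_cast h2
    unfold excess
    linarith
  have hsum : ∑ j, excess d J j + 1 ≤ e := by
    have h1 : ∑ j, excess d J j = ∑ j, ((d j : ℤ) - 1) - ∑ i, ((a i : ℤ) - 1) := by
      unfold excess
      rw [Finset.sum_sub_distrib]
      congr 1
      rw [Finset.sum_fiberwise Finset.univ J (fun r => (a r.1 : ℤ) - 1)]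
      have h2 : ∑ i ∈ Finset.univ.filter (fun i => 1 < a i), ((a i : ℤ) - 1) =
          ∑ r : {i // 1 < a i}, ((a r.1 : ℤ) - 1) :=
        Finset.sum_subtype (Finset.univ.filter (fun i => 1 < a i)) (p := fun i => 1 < a i)
          (fun i => by simp) (fun i => (a i : ℤ) - 1)
      rw [← h2]
      refine Finset.sum_subset (Finset.filter_subset _ _) fun i _ hi => ?_
      have h3 : ¬ 1 < a i := fun h => hi (Finset.mem_filter.2 ⟨Finset.mem_univ _, h⟩)
      have h4 := ha i
      have h5 : a i = 1 := by omega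
      rw [h5]
      simp
    have h5 : ((∑ j, d j + N + 1 : ℕ) : ℤ) ≤ ((e + ∑ i, a i + c : ℕ) : ℤ) := by exact_mod_cast he
    push_cast at h5
    rw [h1, Finset.sum_sub_distrib, Finset.sum_sub_distrib]
    simp only [Finset.sum_const, Finset.card_univ, Fintype.card_fin, nsmul_eq_mul, mul_one]
    linarith
  refine ⟨D, M, hD1, hD2, hM, hDpos, hMpos, haD, hbr0, hsum, fun i hi h2 => ?_⟩
  -- the bound for a variable which is not linear
  have hmem : (⟨i, hi⟩ : {i // 1 < a i}) ∈ Finset.univ.filter fun r => J r = J ⟨i, hi⟩ :=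
    Finset.mem_filter.2 ⟨Finset.mem_univ _, rfl⟩
  have h1 := prod_ge (σ := {i // 1 < a i}) (a := fun r => a r.1) ha'
    ((Finset.univ.filter fun r => J r = J ⟨i, hi⟩).erase ⟨i, hi⟩)
  have h3 := Nat.le_of_dvd (hd _) (hdvd (J ⟨i, hi⟩) (Finset.univ.filter fun r => J r = J ⟨i, hi⟩)
    (fun r hr => (Finset.mem_filter.1 hr).2))
  rw [← Finset.mul_prod_erase _ (fun r : {i // 1 < a i} => a r.1) hmem] at h3
  have h4 : excess d J (J ⟨i, hi⟩) = (d (J ⟨i, hi⟩) : ℤ) - 1 - (((a i : ℤ) - 1) +
      ∑ r ∈ (Finset.univ.filter fun r => J r = J ⟨i, hi⟩).erase ⟨i, hi⟩, ((a r.1 : ℤ) - 1)) := by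
    unfold excess
    rw [Finset.add_sum_erase _ (fun r : {i // 1 < a i} => (a r.1 : ℤ) - 1) hmem]
  rw [h4, ← hD2 i hi]
  rw [← hD2 i hi] at h3
  have h6 : 0 < ∏ r ∈ (Finset.univ.filter fun r => J r = J ⟨i, hi⟩).erase ⟨i, hi⟩, a r.1 :=
    Finset.prod_pos fun r _ => ha' r
  generalize ∏ r ∈ (Finset.univ.filter fun r => J r = J ⟨i, hi⟩).erase ⟨i, hi⟩, a r.1 = P
    at h1 h3 h6
  generalize ∑ r ∈ (Finset.univ.filter fun r => J r = J ⟨i, hi⟩).erase ⟨i, hi⟩,
    ((a r.1 : ℤ) - 1) = R at h1 ⊢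
  have h7 : (a i : ℤ) * P ≤ D i := by exact_mod_cast h3
  have h8 : (2 : ℤ) * a i ≤ D i := by exact_mod_cast h2
  have h9 : (2 : ℤ) ≤ a i := by exact_mod_cast hi
  rcases Nat.lt_or_ge P 2 with hP | hP
  · have hP1 : P = 1 := by omega
    rw [hP1] at h1
    push_cast at h1
    linarith
  · have h10 : (2 : ℤ) ≤ P := by exact_mod_cast hP
    have h11 : 0 ≤ ((a i : ℤ) - 1) * ((P : ℤ) - 2) := mul_nonneg (by linarith) (by linarith)
    nlinarith

variable {B : Type*} [CommRing B] [Algebra ℂ B]

theorem main2 {c : ℕ} {a : Fin N → ℕ} (ha : ∀ i, 0 < a i)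
    (hcop : ∀ i i', i ≠ i' → Nat.Coprime (a i) (a i')) {d : Fin c → ℕ} (hd : ∀ j, 0 < d j)
    {f : Fin c → MvPolynomial (Fin N) ℂ} (hf : ∀ j, IsWeightedHomogeneous a (f j) (d j))
    (J : {i // 1 < a i} → Fin c)
    (hpure : ∀ i, eval (Pi.single i.1 1 : Fin N → ℂ) (f (J i)) ≠ 0)
    (hbig : ∀ i i' l : {i // 1 < a i}, i' ≠ i → J i' = J i → l ≠ i →
      2 * ((a i.1 : ℤ) * a l.1) ≤ a i.1 + a l.1 + excess d J (J i) +
        if J l = J i then 0 else excess d J (J l)) {e : ℕ}
    (he : ∑ j, d j + N + 1 ≤ e + ∑ i, a i + c) {v : Fin N → ℂ} (hv : v ≠ 0)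
    (hfv : ∀ j, eval v (f j) = 0) {y : Fin N → B}
    (hmono : ∀ q : Fin N → ℕ, ∑ i, q i * a i = e →
      ∏ i, y i ^ q i = ∏ i, algebraMap ℂ B (v i) ^ q i)
    (hfy : ∀ j, aeval y (f j) = 0) :
    ∃ t : Bˣ, ∀ i, y i = (t : B) ^ a i * algebraMap ℂ B (v i) := by
  classical
  obtain ⟨D, M, hD1, hD2, hM, hDpos, hMpos, haD, hbr0, hsum, hbr1⟩ :=
    setup2 ha hcop hd hf J hpure he
  -- it is enough to find `t` for the variables which are not linear in an equation
  suffices hmain : ∃ t : Bˣ, ∀ l, (a l = 1 ∨ 2 * a l ≤ D l) →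
      y l = (t : B) ^ a l * algebraMap ℂ B (v l) by
    obtain ⟨t, ht⟩ := hmain
    refine ⟨t, linear_step ha hcop hf hfv hfy t fun l => ?_⟩
    by_cases hl : a l = 1 ∨ 2 * a l ≤ D l
    · exact Or.inl (ht l hl)
    · right
      push Not at hl
      have h1 : 1 < a l := by
        have := ha l
        omega
      have h2 : M l = 1 := by
        have h3 := (hM l).1
        have h4 := hMpos l
        by_contra h5
        have h6 : 2 ≤ M l := by omega
        have h7 : 2 * a l ≤ M l * a l := Nat.mul_le_mul_right _ h6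
        omega
      refine ⟨h1, J ⟨l, h1⟩, ?_, ?_⟩
      · rw [← hD2 l h1, ← (hM l).1, h2, one_mul]
      · have h3 := (hM l).2 h1
        rw [h2] at h3
        exact MvPolynomial.mem_support_iff.1 h3
  have hbrU : ∀ U : Finset (Fin c), ∑ j ∈ U, excess d J j + 1 ≤ e := fun U =>
    le_trans (by
      have := Finset.sum_le_sum_of_subset_of_nonneg (f := excess d J) (Finset.subset_univ U)
        (fun j _ _ => hbr0 j)
      linarith) hsum
  have hbrj : ∀ j, excess d J j + 1 ≤ e := fun j => by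
    have := hbrU {j}
    rwa [Finset.sum_singleton] at this
  have he1 : (1 : ℤ) ≤ e := by
    have := hbrU ∅
    rwa [Finset.sum_empty, zero_add] at this
  set S : Finset (Fin N) := Finset.univ.filter fun i => v i ≠ 0 with hS
  have hmemS : ∀ i, i ∈ S ↔ v i ≠ 0 := fun i => by simp [hS]
  have hSne : S.Nonempty := by
    obtain ⟨i, hi⟩ := Function.ne_iff.1 hv
    exact ⟨i, (hmemS i).2 hi⟩
  have hunit : ∀ i ∈ S, IsUnit (algebraMap ℂ B (v i)) := fun i hi =>
    (isUnit_iff_ne_zero.2 ((hmemS i).1 hi)).map (algebraMap ℂ B)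
  by_cases hone : ∃ i ∈ S, a i = 1
  · -- a nonzero coordinate of weight one
    obtain ⟨i0, hi0, hi1⟩ := hone
    obtain ⟨t, ht⟩ := ratio (T := {i0}) (a := a) (m := fun _ => 0) (lam := fun _ _ => 0)
      (i0 := i0) (z := fun _ => 1) (e := e) (v := fun i => algebraMap ℂ B (v i)) (y := y)
      (Finset.mem_singleton_self i0) (fun i _ => ha i) (fun i _ => by simp)
      (fun V hV hVne _ => by
        obtain ⟨x, hx⟩ := hVne
        rw [← Finset.mem_singleton.1 (hV hx)]
        exact hx) (by simp [hi1]) (by simp [hi1]; omega)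
      (fun i hi hne => absurd (Finset.mem_singleton.1 hi) hne)
      (fun i hi => by
        rw [Finset.mem_singleton.1 hi]
        simp [hi1]
        omega)
      (fun i hi => by
        rw [Finset.mem_singleton.1 hi]
        exact hunit i0 hi0) hmono
    refine ⟨t, fun l hl => ?_⟩
    apply ht l
    simp [hi1]
    by_cases hl1 : 1 < a l
    · have h2 := hbr1 l hl1 (by rcases hl with hl | hl <;> omega)
      have h3 := hbrj (J ⟨l, hl1⟩)
      omega
    · have := ha l
      omega
  push Not at hone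
  have ha2 : ∀ i ∈ S, 1 < a i := by
    intro i hi
    have := hone i hi
    have := ha i
    omega
  -- the second monomials
  have hsec : ∀ i ∈ S, ∃ μ : Fin N → ℕ, M i * a i = ∑ l ∈ S, μ l * a l ∧ μ i < M i := by
    intro i hi
    have hi2 := ha2 i hi
    obtain ⟨β, hβ, hβne, hβv⟩ := exists_monomial' (hfv (J ⟨i, hi2⟩)) ((hM i).2 hi2) (by
      intro l hl
      by_cases hli : l = i
      · rw [hli]; exact (hmemS i).1 hi
      · exact absurd (Finsupp.single_eq_of_ne hli) hl)
    have h1 := weight_eq (hf (J ⟨i, hi2⟩)) hβ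
    have h2 : ∑ l ∈ S, β l * a l = d (J ⟨i, hi2⟩) := by
      rw [← h1]
      refine Finset.sum_subset (Finset.subset_univ S) fun l _ hl => ?_
      have h3 : β l = 0 := by
        by_contra hcon
        exact hl ((hmemS l).2 (hβv l hcon))
      rw [h3, zero_mul]
    refine ⟨fun l => β l, by rw [(hM i).1, hD2 i hi2, h2], ?_⟩
    have h4 : β i * a i + ∑ l ∈ Finset.univ.erase i, β l * a l = M i * a i := by
      rw [Finset.add_sum_erase _ (fun l => β l * a l) (Finset.mem_univ i), h1, (hM i).1, hD2 i hi2]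
    by_contra hcon
    push Not at hcon
    have h5 : M i * a i ≤ β i * a i := Nat.mul_le_mul_right _ hcon
    have h6 : ∑ l ∈ Finset.univ.erase i, β l * a l = 0 := by omega
    have h7 : β i = M i := by
      rw [h6, add_zero] at h4
      exact Nat.eq_of_mul_eq_mul_right (ha i) h4
    apply hβne
    ext l
    by_cases hli : l = i
    · rw [hli, h7]; simp
    · rw [Finsupp.single_eq_of_ne hli]
      have h8 := (Finset.sum_eq_zero_iff.1 h6) l (Finset.mem_erase.2 ⟨hli, Finset.mem_univ _⟩)
      rcases Nat.mul_eq_zero.1 h8 with h9 | h9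
      · exact h9
      · have := ha l
        omega
  choose! μ hμ hμlt using hsec
  -- another element of the support
  have hother : ∀ i ∈ S, ∃ l ∈ S, l ≠ i := by
    intro i hi
    by_contra hcon
    push Not at hcon
    have h1 : ∑ l ∈ S, μ i l * a l = μ i i * a i :=
      Finset.sum_eq_single_of_mem i hi fun l hl hne => absurd (hcon l hl) hne
    have h2 := hμ i hi
    rw [h1] at h2
    have h3 := Nat.eq_of_mul_eq_mul_right (ha i) h2
    have h4 := hμlt i hi
    omega
  by_cases hcl : ∃ i ∈ S, ∃ hi : 1 < a i, ∃ i' : {i // 1 < a i}, i' ≠ ⟨i, hi⟩ ∧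
      J i' = J ⟨i, hi⟩
  · -- a large degree: two coordinates are enough
    obtain ⟨i, hiS, hi, i', hne', hJ'⟩ := hcl
    obtain ⟨l, hlS, hli⟩ := hother i hiS
    have hl := ha2 l hlS
    have hl1 := hbig ⟨i, hi⟩ i' ⟨l, hl⟩ hne' hJ' (fun h => hli (congrArg Subtype.val h))
    simp only at hl1
    have hE0 : excess d J (J ⟨i, hi⟩) + (if J ⟨l, hl⟩ = J ⟨i, hi⟩ then 0 else excess d J (J ⟨l, hl⟩)) +
        1 ≤ e := by
      split_ifs with h
      · have := hbrj (J ⟨i, hi⟩)
        linarith
      · have h1 := hbrU {J ⟨l, hl⟩, J ⟨i, hi⟩}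
        rw [Finset.sum_pair h] at h1
        linarith
    have hai : (2 : ℤ) ≤ a i := by exact_mod_cast hi
    have hal : (2 : ℤ) ≤ a l := by exact_mod_cast hl
    have hprod : 0 ≤ ((a i : ℤ) - 2) * ((a l : ℤ) - 2) :=
      mul_nonneg (by linarith) (by linarith)
    obtain ⟨p, q, hpq⟩ : ∃ p q : ℤ, p * a i + q * a l = 1 :=
      Nat.isCoprime_iff_coprime.2 (hcop i l hli.symm)
    have hF : ∑ x ∈ ({i, l} : Finset (Fin N)).erase l,
        (((if x = i then a l else a i : ℕ) : ℤ) - 1) * a x - a l =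
        ((a l : ℤ) - 1) * a i - a l := by
      have h1 : ({i, l} : Finset (Fin N)).erase l = {i} := by
        ext x
        simp only [Finset.mem_erase, Finset.mem_insert, Finset.mem_singleton]
        constructor
        · rintro ⟨h1, h2 | h2⟩
          · exact h2
          · exact absurd h2 h1
        · rintro rfl
          exact ⟨hli.symm, Or.inl rfl⟩
      rw [h1, Finset.sum_singleton, if_pos rfl]
    obtain ⟨t, ht⟩ := ratio (T := {i, l}) (a := a) (m := fun x => if x = i then a l else a i)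
      (lam := fun x x' => if x = i then (if x' = l then a i else 0) else
        (if x' = i then a l else 0))
      (i0 := l) (z := fun x => (if x = i then p else 0) + if x = l then q else 0) (e := e)
      (v := fun i => algebraMap ℂ B (v i)) (y := y) (by simp) (fun i _ => ha i)
      (fun x hx => by
        rw [Finset.sum_pair hli.symm]
        rcases Finset.mem_insert.1 hx with h | h
        · rw [h]
          simp [hli, hli.symm, mul_comm]
        · rw [Finset.mem_singleton.1 h]
          simp [hli, hli.symm, mul_comm])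
      (fun V hV hVne hVcl => by
        obtain ⟨x, hx⟩ := hVne
        rcases Finset.mem_insert.1 (hV hx) with h | h
        · rw [h] at hx
          exact hVcl i hx l (by simp) (by simp; exact ha i)
        · rw [Finset.mem_singleton.1 h] at hx
          exact hx)
      (by
        rw [Finset.sum_pair hli.symm]
        simp [hli, hli.symm]
        exact hpq)
      (by rw [hF]; nlinarith)
      (fun x hx hne => by
        rw [hF]
        rcases Finset.mem_insert.1 hx with h | h
        · rw [h, if_pos rfl]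
          nlinarith
        · exact absurd (Finset.mem_singleton.1 h) hne)
      (fun x hx => by
        rw [hF]
        rcases Finset.mem_insert.1 hx with h | h
        · rw [h]
          nlinarith
        · rw [Finset.mem_singleton.1 h]
          nlinarith)
      (fun x hx => by
        rcases Finset.mem_insert.1 hx with h | h
        · rw [h]; exact hunit i hiS
        · rw [Finset.mem_singleton.1 h]; exact hunit l hlS) hmono
    refine ⟨t, fun x hx => ?_⟩
    apply ht x
    rw [hF]
    by_cases hx1 : 1 < a x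
    · have hax : (2 : ℤ) ≤ a x := by exact_mod_cast hx1
      by_cases hxi : x = i
      · rw [hxi]
        nlinarith
      · by_cases hxl : x = l
        · rw [hxl]
          nlinarith
        · by_cases hJx : J ⟨x, hx1⟩ = J ⟨i, hi⟩
          · -- `x` is in the class of `i`
            have h1 := hbig ⟨i, hi⟩ i' ⟨x, hx1⟩ hne' hJ' (fun h => hxi (congrArg Subtype.val h))
            rw [if_pos hJx] at h1
            simp only at h1
            have h2 : 0 ≤ ((a i : ℤ) - 2) * (a x : ℤ) := mul_nonneg (by linarith) (by linarith)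
            have h3 : 0 ≤ (if J ⟨l, hl⟩ = J ⟨i, hi⟩ then (0 : ℤ) else excess d J (J ⟨l, hl⟩)) := by
              split_ifs
              · exact le_rfl
              · exact hbr0 _
            nlinarith
          · by_cases hJxl : J ⟨x, hx1⟩ = J ⟨l, hl⟩
            · -- `x` is in the class of `l`
              have hJli : J ⟨l, hl⟩ ≠ J ⟨i, hi⟩ := fun h => hJx (hJxl.trans h)
              have h1 := hbig ⟨l, hl⟩ ⟨x, hx1⟩ ⟨x, hx1⟩ (fun h => hxl (congrArg Subtype.val h))
                hJxl (fun h => hxl (congrArg Subtype.val h))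
              rw [if_pos hJxl] at h1
              rw [if_neg hJli] at hl1 hE0
              simp only at h1
              have h2 : 0 ≤ ((a l : ℤ) - 2) * (a x : ℤ) := mul_nonneg (by linarith) (by linarith)
              have h3 := hbr0 (J ⟨i, hi⟩)
              nlinarith
            · have h1 := hbr1 x hx1 (by rcases hx with hx | hx <;> omega)
              have h2 : excess d J (J ⟨i, hi⟩) +
                  (if J ⟨l, hl⟩ = J ⟨i, hi⟩ then 0 else excess d J (J ⟨l, hl⟩)) +
                  excess d J (J ⟨x, hx1⟩) + 1 ≤ e := by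
                split_ifs with h
                · have h3 := hbrU {J ⟨x, hx1⟩, J ⟨i, hi⟩}
                  rw [Finset.sum_pair hJx] at h3
                  linarith
                · have h3 := hbrU {J ⟨x, hx1⟩, J ⟨l, hl⟩, J ⟨i, hi⟩}
                  rw [Finset.sum_insert (by
                    rw [Finset.mem_insert, Finset.mem_singleton, not_or]
                    exact ⟨hJxl, hJx⟩), Finset.sum_pair h] at h3
                  linarith
              nlinarith
    · have h1 : a x = 1 := by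
        have := ha x
        omega
      rw [h1]
      push_cast
      nlinarith
  push Not at hcl
  -- the singletons
  have hsumT : ∀ T ⊆ S, ∑ i ∈ T, ((D i : ℤ) - a i) + 1 ≤ e ∧ ∀ l (hl : 1 < a l), l ∉ T →
      ∑ i ∈ T, ((D i : ℤ) - a i) + excess d J (J ⟨l, hl⟩) + 1 ≤ e := by
    intro T hT
    set T' : Finset {i // 1 < a i} := Finset.univ.filter fun r => r.1 ∈ T with hT'
    have hinj : ∀ r ∈ T', ∀ r' : {i // 1 < a i}, J r' = J r → r' = r := by
      intro r hr r' h
      by_contra hne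
      exact hcl r.1 (hT (Finset.mem_filter.1 hr).2) r.2 r' hne h
    have h1 : T = T'.image Subtype.val := by
      ext i
      rw [Finset.mem_image]
      constructor
      · intro hi
        exact ⟨⟨i, ha2 i (hT hi)⟩, Finset.mem_filter.2 ⟨Finset.mem_univ _, hi⟩, rfl⟩
      · rintro ⟨r, hr, rfl⟩
        exact (Finset.mem_filter.1 hr).2
    have h2 : ∑ i ∈ T, ((D i : ℤ) - a i) = ∑ r ∈ T', ((D r.1 : ℤ) - a r.1) := by
      conv_lhs => rw [h1]
      rw [Finset.sum_image fun x _ y _ h => Subtype.ext h]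
    have h3 : ∑ i ∈ T, ((D i : ℤ) - a i) = ∑ j ∈ T'.image J, excess d J j := by
      rw [h2, Finset.sum_image fun x hx y hy h => (hinj y hy x h)]
      refine Finset.sum_congr rfl fun r hr => ?_
      have h4 : (Finset.univ.filter fun r' => J r' = J r) = {r} := by
        ext r'
        rw [Finset.mem_filter, Finset.mem_singleton]
        constructor
        · rintro ⟨-, h⟩
          exact hinj r hr r' h
        · rintro rfl
          exact ⟨Finset.mem_univ _, rfl⟩
      unfold excess
      rw [h4, Finset.sum_singleton, hD2 r.1 r.2]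
      ring
    refine ⟨by rw [h3]; exact hbrU _, fun l hl hlT => ?_⟩
    have h4 : J ⟨l, hl⟩ ∉ T'.image J := by
      intro h
      obtain ⟨r, hr, hr'⟩ := Finset.mem_image.1 h
      have h5 := hinj r hr ⟨l, hl⟩ hr'.symm
      apply hlT
      have h6 : l = r.1 := congrArg Subtype.val h5
      rw [h6]
      exact (Finset.mem_filter.1 hr).2
    have h5 := hbrU (insert (J ⟨l, hl⟩) (T'.image J))
    rw [Finset.sum_insert h4, ← h3] at h5
    linarith
  -- a minimal closed subset
  set P : Finset (Finset (Fin N)) := S.powerset.filter fun T => T.Nonempty ∧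
    ∀ i ∈ T, ∀ l ∈ S, 0 < μ i l → l ∈ T with hP
  have hPne : P.Nonempty := ⟨S, Finset.mem_filter.2 ⟨Finset.mem_powerset_self S, hSne,
    fun i _ l hl _ => hl⟩⟩
  obtain ⟨T, hTP, hTmin⟩ := Finset.exists_min_image P Finset.card hPne
  obtain ⟨hTS, hTne, hTcl⟩ := Finset.mem_filter.1 hTP
  rw [Finset.mem_powerset] at hTS
  obtain ⟨i0, hi0, hmax⟩ := Finset.exists_max_image T D hTne
  have hreach : ∀ V ⊆ T, V.Nonempty → (∀ i ∈ V, ∀ l ∈ T, 0 < μ i l → l ∈ V) → i0 ∈ V := by
    intro V hVT hVne hVcl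
    have h1 := hTmin V (Finset.mem_filter.2 ⟨Finset.mem_powerset.2 (hVT.trans hTS), hVne,
      fun i hi l hl hil => hVcl i hi l (hTcl i (hVT hi) l hl hil) hil⟩)
    rw [Finset.eq_of_subset_of_card_le hVT h1]
    exact hi0
  have hrel : ∀ i ∈ T, M i * a i = ∑ l ∈ T, μ i l * a l := by
    intro i hi
    rw [hμ i (hTS hi)]
    symm
    refine Finset.sum_subset hTS fun l hl hlT => ?_
    have h1 : μ i l = 0 := by
      by_contra hcon
      exact hlT (hTcl i hi l hl (Nat.pos_of_ne_zero hcon))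
    rw [h1, zero_mul]
  -- two elements
  obtain ⟨i1, hi1, hne1⟩ : ∃ i1 ∈ T, i1 ≠ i0 := by
    by_contra hcon
    push Not at hcon
    have h1 : ∑ l ∈ T, μ i0 l * a l = μ i0 i0 * a i0 := by
      refine Finset.sum_eq_single_of_mem i0 hi0 fun l hl hne => absurd (hcon l hl) hne
    have h2 := hrel i0 hi0
    rw [h1] at h2
    have h3 := Nat.eq_of_mul_eq_mul_right (ha i0) h2
    have h4 := hμlt i0 (hTS hi0)
    omega
  obtain ⟨p, q, hpq⟩ : ∃ p q : ℤ, p * a i0 + q * a i1 = 1 :=
    Nat.isCoprime_iff_coprime.2 (hcop i0 i1 hne1.symm)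
  have hz : ∑ i ∈ T, ((if i = i0 then p else 0) + if i = i1 then q else 0) * (a i : ℤ) = 1 := by
    simp only [add_mul, Finset.sum_add_distrib, ite_mul, zero_mul]
    rw [Finset.sum_ite_eq' T i0, Finset.sum_ite_eq' T i1, if_pos hi0, if_pos hi1]
    exact hpq
  have hMa : ∀ i, ((M i : ℤ) - 1) * a i = (D i : ℤ) - a i := by
    intro i
    have h1 : (M i : ℤ) * a i = D i := by exact_mod_cast (hM i).1
    rw [sub_mul, h1, one_mul]
  have hF : ∑ i ∈ T.erase i0, ((M i : ℤ) - 1) * a i - a i0 =
      ∑ i ∈ T, ((D i : ℤ) - a i) - D i0 := by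
    rw [← Finset.add_sum_erase T (fun i => (D i : ℤ) - a i) hi0,
      Finset.sum_congr rfl fun i _ => hMa i]
    ring
  have hTsum := (hsumT T hTS).1
  have hD0 : (0 : ℤ) < D i0 := by exact_mod_cast hDpos i0
  obtain ⟨t, ht⟩ := ratio (T := T) (a := a) (m := M) (lam := μ) (i0 := i0)
    (z := fun i => (if i = i0 then p else 0) + if i = i1 then q else 0) (e := e)
    (v := fun i => algebraMap ℂ B (v i)) (y := y) hi0 (fun i _ => ha i) hrel hreach hz
    (by rw [hF]; linarith)
    (fun i hi _ => by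
      rw [hF]
      have h1 : (M i : ℤ) * a i = D i := by exact_mod_cast (hM i).1
      have h2 : (D i : ℤ) ≤ D i0 := by exact_mod_cast hmax i hi
      rw [h1]
      linarith)
    (fun i hi => by
      rw [hF]
      have h2 : (D i : ℤ) ≤ D i0 := by exact_mod_cast hmax i hi
      have h3 : (a i : ℤ) ≤ D i := by exact_mod_cast haD i
      linarith)
    (fun i hi => hunit i (hTS hi)) hmono
  refine ⟨t, fun l hl => ?_⟩
  apply ht l
  rw [hF]
  have h3 : (a l : ℤ) ≤ D l := by exact_mod_cast haD l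
  by_cases hlT : l ∈ T
  · have h2 : (D l : ℤ) ≤ D i0 := by exact_mod_cast hmax l hlT
    linarith
  · by_cases hl1 : 1 < a l
    · have h4 := (hsumT T hTS).2 l hl1 hlT
      have h5 := hbr1 l hl1 (by rcases hl with hl | hl <;> omega)
      linarith
    · have h1 : a l = 1 := by
        have := ha l
        omega
      rw [h1]
      push_cast
      linarith

theorem e_pos2 {c : ℕ} {a : Fin N → ℕ} (ha : ∀ i, 0 < a i)
    (hcop : ∀ i i', i ≠ i' → Nat.Coprime (a i) (a i')) {d : Fin c → ℕ} (hd : ∀ j, 0 < d j)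
    {f : Fin c → MvPolynomial (Fin N) ℂ} (hf : ∀ j, IsWeightedHomogeneous a (f j) (d j))
    (J : {i // 1 < a i} → Fin c)
    (hpure : ∀ i, eval (Pi.single i.1 1 : Fin N → ℂ) (f (J i)) ≠ 0) {e : ℕ}
    (he : ∑ j, d j + N + 1 ≤ e + ∑ i, a i + c) : 0 < e := by
  obtain ⟨D, M, -, -, -, -, -, -, hbr0, hsum, -⟩ := setup2 ha hcop hd hf J hpure he
  have h1 : 0 ≤ ∑ j, excess d J j := Finset.sum_nonneg fun j _ => hbr0 j
  omega

end Pool.Agent.Run7.h72.WF
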