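import Pool.Agent.Run7.h72.WF.Main
import Pool.Agent.H61.Fu.Final

/-!
Points and tangent vectors are separated, if points with values in an arbitrary `ℂ`-algebra are
determined by the values of the monomials of degree `e`.
-/

set_option autoImplicit false

namespace Pool.Agent.Run7.h72.WF

open MvPolynomial Pool.Agent.H39R2.Fuj

variable {N : ℕ}

theorem eval_mon (w : Fin N → ℂ) (q : Fin N → ℕ) :
    eval w (monomial (Finsupp.equivFunOnFinite.symm q) (1 : ℂ)) = ∏ i, w i ^ q i := by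
  rw [eval_monomial, Finsupp.prod_fintype _ _ (fun i => by simp), one_mul]
  rfl

theorem hom_mon {a : Fin N → ℕ} {e : ℕ} {q : Fin N → ℕ} (hq : ∑ i, q i * a i = e) :
    IsWeightedHomogeneous a (monomial (Finsupp.equivFunOnFinite.symm q) (1 : ℂ)) e :=
  isWeightedHomogeneous_monomial a _ _ (by
    rw [Finsupp.weight_apply, Finsupp.sum_fintype _ _ (fun i => by simp)]
    simpa using hq)

/-- the values of the monomials -/
theorem prod_of_sections {B : Type*} [CommRing B] [Algebra ℂ B] {a : Fin N → ℕ} {e : ℕ}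
    {v : Fin N → ℂ} {y : Fin N → B}
    (h : ∀ s : MvPolynomial (Fin N) ℂ, IsWeightedHomogeneous a s e →
      aeval y s = algebraMap ℂ B (eval v s)) (q : Fin N → ℕ) (hq : ∑ i, q i * a i = e) :
    ∏ i, y i ^ q i = ∏ i, algebraMap ℂ B (v i) ^ q i := by
  have h1 := h _ (hom_mon hq)
  rw [aeval_monomial, eval_mon, Finsupp.prod_fintype _ _ (fun i => by simp), map_one, one_mul,
    map_prod] at h1
  simpa using h1

section

variable {c : ℕ} {a : Fin N → ℕ} {d : Fin c → ℕ} {f : Fin c → MvPolynomial (Fin N) ℂ} {e : ℕ}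

theorem base (ha : ∀ i, 0 < a i) (hf : ∀ j, IsWeightedHomogeneous a (f j) (d j))
    (hmain : ∀ (B : Type) [CommRing B] [Algebra ℂ B] (v : Fin N → ℂ), v ≠ 0 →
      (∀ j, eval v (f j) = 0) → ∀ y : Fin N → B,
      (∀ q : Fin N → ℕ, ∑ i, q i * a i = e →
        ∏ i, y i ^ q i = ∏ i, algebraMap ℂ B (v i) ^ q i) →
      (∀ j, aeval y (f j) = 0) →
      ∃ t : Bˣ, ∀ i, y i = (t : B) ^ a i * algebraMap ℂ B (v i))
    (v : Fin N → ℂ) (hv : v ≠ 0) (hfv : ∀ j, eval v (f j) = 0) :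
    ∃ s : MvPolynomial (Fin N) ℂ, IsWeightedHomogeneous a s e ∧ eval v s ≠ 0 := by
  by_contra hcon
  push Not at hcon
  obtain ⟨t, ht⟩ := hmain ℂ v hv hfv (fun i => (0 : ℂ) ^ a i * v i) (fun q hq => by
    have h2 := hom_mon hq
    have h3 := hcon _ h2
    have h4 := eval_scale a v (0 : ℂ) h2
    rw [h3, mul_zero, eval_mon] at h4
    rw [eval_mon] at h3
    rw [h4]
    exact h3.symm) (fun j => by
    have h4 := eval_scale a v (0 : ℂ) (hf j)
    rw [hfv, mul_zero] at h4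
    rw [aeval_eq_eval]
    exact h4)
  apply hv
  funext i
  have h1 := ht i
  rw [zero_pow (by have := ha i; omega), zero_mul] at h1
  rcases mul_eq_zero.1 h1.symm with h2 | h2
  · exact absurd (pow_eq_zero_iff (by have := ha i; omega) |>.1 h2) t.ne_zero
  · exact h2

theorem points (hf : ∀ j, IsWeightedHomogeneous a (f j) (d j)) (he : 0 < e)
    (hmain : ∀ (B : Type) [CommRing B] [Algebra ℂ B] (v : Fin N → ℂ), v ≠ 0 →
      (∀ j, eval v (f j) = 0) → ∀ y : Fin N → B,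
      (∀ q : Fin N → ℕ, ∑ i, q i * a i = e →
        ∏ i, y i ^ q i = ∏ i, algebraMap ℂ B (v i) ^ q i) →
      (∀ j, aeval y (f j) = 0) →
      ∃ t : Bˣ, ∀ i, y i = (t : B) ^ a i * algebraMap ℂ B (v i))
    (hb : ∀ v : Fin N → ℂ, v ≠ 0 → (∀ j, eval v (f j) = 0) →
      ∃ s : MvPolynomial (Fin N) ℂ, IsWeightedHomogeneous a s e ∧ eval v s ≠ 0)
    (v w : Fin N → ℂ) (hv : v ≠ 0) (hw : w ≠ 0) (hfv : ∀ j, eval v (f j) = 0)
    (hfw : ∀ j, eval w (f j) = 0)
    (hsec : ∀ s : MvPolynomial (Fin N) ℂ, IsWeightedHomogeneous a s e → eval v s = 0 →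
      eval w s = 0) : ∃ t : ℂ, t ≠ 0 ∧ ∀ i, w i = t ^ a i * v i := by
  obtain ⟨c, hc⟩ := Pool.Agent.H61.Fu.prop_sections (a := a) (e := e) (v := v)
    (fun s => eval w s) (fun s t => by simp) (fun c s _ => by simp) (hb v hv hfv) hsec
  have hc0 : c ≠ 0 := by
    rintro rfl
    obtain ⟨s, h1, h2⟩ := hb w hw hfw
    exact h2 (by rw [hc s h1, zero_mul])
  obtain ⟨μ, hμ⟩ := IsAlgClosed.exists_pow_nat_eq c he
  have hμ0 : μ ≠ 0 := by
    rintro rfl
    rw [zero_pow (by omega)] at hμ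
    exact hc0 hμ.symm
  set w' : Fin N → ℂ := fun i => μ⁻¹ ^ a i * w i with hw'
  have hww : ∀ i, w i = μ ^ a i * w' i := by
    intro i
    rw [hw']
    simp only
    rw [← mul_assoc, ← mul_pow, mul_inv_cancel₀ hμ0, one_pow, one_mul]
  have hs : ∀ s, IsWeightedHomogeneous a s e → eval w' s = eval v s := by
    intro s hs
    rw [hw', eval_scale a w μ⁻¹ hs, hc s hs, ← hμ, ← mul_assoc, ← mul_pow, inv_mul_cancel₀ hμ0,
      one_pow, one_mul]
  have hfw' : ∀ j, eval w' (f j) = 0 := by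
    intro j
    rw [hw', eval_scale a w μ⁻¹ (hf j), hfw, mul_zero]
  obtain ⟨T, hT⟩ := hmain ℂ v hv hfv w' (prod_of_sections fun s h => by
    rw [← hs s h]; simp [aeval_eq_eval]) (fun j => by rw [aeval_eq_eval]; exact hfw' j)
  refine ⟨μ * T, mul_ne_zero hμ0 T.ne_zero, fun i => ?_⟩
  rw [hww, hT, mul_pow, mul_assoc]
  rfl

theorem tangents (ha : ∀ i, 0 < a i) (hf : ∀ j, IsWeightedHomogeneous a (f j) (d j)) (he : 0 < e)
    (hmain : ∀ (B : Type) [CommRing B] [Algebra ℂ B] (v : Fin N → ℂ), v ≠ 0 →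
      (∀ j, eval v (f j) = 0) → ∀ y : Fin N → B,
      (∀ q : Fin N → ℕ, ∑ i, q i * a i = e →
        ∏ i, y i ^ q i = ∏ i, algebraMap ℂ B (v i) ^ q i) →
      (∀ j, aeval y (f j) = 0) →
      ∃ t : Bˣ, ∀ i, y i = (t : B) ^ a i * algebraMap ℂ B (v i))
    (hb : ∀ v : Fin N → ℂ, v ≠ 0 → (∀ j, eval v (f j) = 0) →
      ∃ s : MvPolynomial (Fin N) ℂ, IsWeightedHomogeneous a s e ∧ eval v s ≠ 0)
    (v u : Fin N → ℂ) (hv : v ≠ 0) (hfv : ∀ j, eval v (f j) = 0)
    (hfu : ∀ j, dd v u (f j) = 0)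
    (hsec : ∀ s : MvPolynomial (Fin N) ℂ, IsWeightedHomogeneous a s e → eval v s = 0 →
      dd v u s = 0) : ∃ τ : ℂ, ∀ i, u i = τ * (a i * v i) := by
  obtain ⟨c, hc⟩ := Pool.Agent.H61.Fu.prop_sections (a := a) (e := e) (v := v)
    (fun s => dd v u s) (fun s t => dd_sub v u s t) (fun c s _ => dd_smul v u c s)
    (hb v hv hfv) hsec
  have he' : (e : ℂ) ≠ 0 := by
    exact_mod_cast (by omega : e ≠ 0)
  set τ : ℂ := c / e with hτ
  set u' : Fin N → ℂ := fun i => u i - τ * (a i * v i) with hu'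
  have hdd : ∀ s, dd v u' s = dd v u s - τ * dd v (fun i => a i * v i) s := by
    intro s
    rw [hu', dd_sub_dir v u (fun i => τ * (a i * v i)) s, dd_smul_dir]
  set y : Fin N → TrivSqZeroExt ℂ ℂ :=
    fun i => TrivSqZeroExt.inl (v i) + TrivSqZeroExt.inr (u' i) with hy
  have hys : ∀ s : MvPolynomial (Fin N) ℂ, IsWeightedHomogeneous a s e →
      aeval y s = algebraMap ℂ (TrivSqZeroExt ℂ ℂ) (eval v s) := by
    intro s hs
    rw [hy, Pool.Agent.H61.Fu.aeval_dual, hdd, dd_euler a v hs, hc s hs, hτ]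
    have : c * eval v s - c / e * (e * eval v s) = 0 := by field_simp; ring
    rw [this, TrivSqZeroExt.inr_zero, add_zero]
    rfl
  obtain ⟨T, hT⟩ := hmain (TrivSqZeroExt ℂ ℂ) v hv hfv y (prod_of_sections hys) (fun j => by
    rw [hy, Pool.Agent.H61.Fu.aeval_dual, hdd, dd_euler a v (hf j), hfv, hfu, mul_zero, mul_zero,
      sub_zero, TrivSqZeroExt.inl_zero, TrivSqZeroExt.inr_zero, add_zero])
  have hT0 : (T : TrivSqZeroExt ℂ ℂ).fst ≠ 0 := by
    have := (TrivSqZeroExt.isUnit_iff_isUnit_fst.1 T.isUnit)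
    exact this.ne_zero
  set t0 := (T : TrivSqZeroExt ℂ ℂ).fst
  set t1 := (T : TrivSqZeroExt ℂ ℂ).snd
  refine ⟨τ + t1 / t0, fun i => ?_⟩
  have h1 := congrArg TrivSqZeroExt.fst (hT i)
  have h2 := congrArg TrivSqZeroExt.snd (hT i)
  have hal : algebraMap ℂ (TrivSqZeroExt ℂ ℂ) (v i) = TrivSqZeroExt.inl (v i) := rfl
  rw [hal] at h1 h2
  simp only [hy, TrivSqZeroExt.fst_add, TrivSqZeroExt.fst_inl, TrivSqZeroExt.fst_inr, add_zero,
    TrivSqZeroExt.fst_mul, TrivSqZeroExt.fst_pow] at h1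
  simp only [hy, TrivSqZeroExt.snd_add, TrivSqZeroExt.snd_inl, TrivSqZeroExt.snd_inr, zero_add,
    TrivSqZeroExt.snd_mul, TrivSqZeroExt.snd_pow, TrivSqZeroExt.fst_inl,
    MulOpposite.smul_eq_mul_unop, MulOpposite.unop_op, smul_eq_mul, nsmul_eq_mul] at h2
  have h3 : u' i = t1 / t0 * (a i * v i) := by
    rw [h2]
    rcases Nat.eq_zero_or_pos (a i) with h | h
    · have := ha i; omega
    obtain ⟨b, hb⟩ : ∃ b, a i = b + 1 := ⟨a i - 1, by omega⟩
    change v i = t0 ^ a i * v i at h1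
    rw [hb] at h1 ⊢
    rw [mul_zero, zero_add, Nat.pred_succ]
    change ((b + 1 : ℕ) : ℂ) * (t0 ^ b * t1) * v i = _
    have h4 : t1 / t0 * (((b + 1 : ℕ) : ℂ) * v i) =
        t1 / t0 * (((b + 1 : ℕ) : ℂ) * (t0 ^ (b + 1) * v i)) := by rw [← h1]
    rw [h4]
    field_simp
    ring
  rw [hu'] at h3
  simp only at h3
  rw [add_mul, ← h3]
  ring

end

end Pool.Agent.Run7.h72.WF
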