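import Pool.Agent.Run7.h277.WF.Chip

/-!
Chip firing in a lattice of relations between the generators of a numerical semigroup: removing
the debts, and reducing.
-/

set_option autoImplicit false

namespace Pool.Agent.Run7.h72.WF

open Finset Pool.Agent.Run7.h277.WF

variable {ι : Type} [DecidableEq ι]

/-- removing the debts outside `i0` by reverse firings -/
theorem up {T : Finset ι} {a m : ι → ℕ} {lam : ι → ι → ℕ} {i0 : ι}
    (hi0 : i0 ∈ T) (ha : ∀ i ∈ T, 0 < a i)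
    (hrel : ∀ i ∈ T, m i * a i = ∑ l ∈ T, lam i l * a l)
    (hreach : ∀ V ⊆ T, V.Nonempty → (∀ i ∈ V, ∀ l ∈ T, 0 < lam i l → l ∈ V) → i0 ∈ V)
    (Q : (ι → ℤ) → Prop)
    (hQ : ∀ x, Q x → ∀ i ∈ T, i ≠ i0 →
      Q (fun l => x l - lam i l + if l = i then (m i : ℤ) else 0))
    {x0 : ι → ℤ} (hx0 : Q x0) : ∃ x, Q x ∧ ∀ i ∈ T, i ≠ i0 → 0 ≤ x i := by
  classical
  obtain ⟨dist, hdist⟩ := exists_dist hreach
  obtain ⟨D, hD⟩ : ∃ D, ∀ i ∈ T, dist i ≤ D := ⟨T.sup dist, fun i hi => Finset.le_sup hi⟩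
  obtain ⟨M, hM⟩ : ∃ M : ℕ, M = 1 + ∑ i ∈ T, m i := ⟨_, rfl⟩
  have hMm : ∀ i ∈ T, m i < M := by
    intro i hi
    have := Finset.single_le_sum (f := m) (fun _ _ => Nat.zero_le _) hi
    omega
  have hM1 : 1 ≤ M := by omega
  -- the potential
  obtain ⟨w, hw⟩ : ∃ w : ι → ℤ, ∀ i, w i = (M : ℤ) ^ (D + 1) * a i - (M : ℤ) ^ (D - dist i) :=
    ⟨_, fun _ => rfl⟩
  have hw0 : ∀ i ∈ T, 0 ≤ w i := by
    intro i hi
    rw [hw, sub_nonneg]
    have h1 : M ^ (D - dist i) ≤ M ^ (D + 1) * a i :=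
      (Nat.pow_le_pow_right hM1 (by omega)).trans (Nat.le_mul_of_pos_right _ (ha i hi))
    exact_mod_cast h1
  have hfire : ∀ i ∈ T, i ≠ i0 → ∑ l ∈ T.erase i0, (lam i l : ℤ) * w l < m i * w i := by
    intro i hi hne
    obtain ⟨l, hl, hil, hdl⟩ := hdist i hi hne
    have hDi := hD i hi
    have h1 : m i * M ^ (D - dist i) < M ^ (D - dist i + 1) := by
      rw [pow_succ']
      exact Nat.mul_lt_mul_of_pos_right (hMm i hi) (Nat.pow_pos hM1)
    have h2 : ∑ l ∈ T.erase i0, (lam i l : ℤ) * w l =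
        (M : ℤ) ^ (D + 1) * ∑ l ∈ T.erase i0, (lam i l : ℤ) * a l -
          ∑ l ∈ T.erase i0, (lam i l : ℤ) * (M : ℤ) ^ (D - dist l) := by
      rw [Finset.mul_sum, ← Finset.sum_sub_distrib]
      exact Finset.sum_congr rfl fun l _ => by rw [hw]; ring
    have h3 : (m i : ℤ) * a i = lam i i0 * a i0 + ∑ l ∈ T.erase i0, (lam i l : ℤ) * a l := by
      rw [Finset.add_sum_erase T (fun l => (lam i l : ℤ) * a l) hi0]
      exact_mod_cast hrel i hi
    have h4 : (m i : ℤ) * w i = (M : ℤ) ^ (D + 1) * (lam i i0 * a i0) +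
        (M : ℤ) ^ (D + 1) * ∑ l ∈ T.erase i0, (lam i l : ℤ) * a l -
          m i * (M : ℤ) ^ (D - dist i) := by
      rw [hw, mul_sub, ← mul_add, ← h3]
      ring
    rw [h2, h4]
    have h5 : ((m i * M ^ (D - dist i) : ℕ) : ℤ) < ((M ^ (D - dist i + 1) : ℕ) : ℤ) := by
      exact_mod_cast h1
    push_cast at h5
    by_cases hli : l = i0
    · rw [hli] at hil
      have h6 : M ^ (D - dist i + 1) ≤ M ^ (D + 1) * (lam i i0 * a i0) :=
        (Nat.pow_le_pow_right hM1 (by omega)).trans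
          (Nat.le_mul_of_pos_right _ (Nat.mul_pos hil (ha i0 hi0)))
      have h7 : (M : ℤ) ^ (D - dist i + 1) ≤ (M : ℤ) ^ (D + 1) * (lam i i0 * a i0) := by
        exact_mod_cast h6
      have h8 : (0 : ℤ) ≤ ∑ l ∈ T.erase i0, (lam i l : ℤ) * (M : ℤ) ^ (D - dist l) :=
        Finset.sum_nonneg fun l _ => by positivity
      linarith
    · have h6 : M ^ (D - dist i + 1) ≤ lam i l * M ^ (D - dist l) :=
        (Nat.pow_le_pow_right hM1 (by omega)).trans (Nat.le_mul_of_pos_left _ hil)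
      have h7 : (M : ℤ) ^ (D - dist i + 1) ≤ (lam i l : ℤ) * (M : ℤ) ^ (D - dist l) := by
        exact_mod_cast h6
      have h8 := Finset.single_le_sum
        (f := fun l => (lam i l : ℤ) * (M : ℤ) ^ (D - dist l)) (fun l _ => by positivity)
        (Finset.mem_erase.2 ⟨hli, hl⟩)
      have h9 : (0 : ℤ) ≤ (M : ℤ) ^ (D + 1) * (lam i i0 * a i0) := by positivity
      linarith
  -- the bounds
  obtain ⟨Bd, hBd⟩ : ∃ Bd : ι → ℤ, ∀ i, Bd i = max (x0 i) (m i) := ⟨_, fun _ => rfl⟩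
  obtain ⟨v, ⟨x, hx, hxB, hxv⟩, hmax⟩ := Int.exists_greatest_of_bdd
    (P := fun v => ∃ x : ι → ℤ, Q x ∧ (∀ i ∈ T, x i ≤ Bd i) ∧
      ∑ i ∈ T.erase i0, x i * w i = v) ⟨∑ i ∈ T.erase i0, Bd i * w i, by
        rintro v ⟨x, -, hxB, rfl⟩
        exact Finset.sum_le_sum fun i hi => mul_le_mul_of_nonneg_right
          (hxB i (Finset.mem_of_mem_erase hi)) (hw0 i (Finset.mem_of_mem_erase hi))⟩
      ⟨_, x0, hx0, fun i _ => by rw [hBd]; exact le_max_left _ _, rfl⟩
  refine ⟨x, hx, fun i hi hne => ?_⟩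
  by_contra hneg
  push Not at hneg
  have h1 := hmax _ ⟨fun l => x l - lam i l + if l = i then (m i : ℤ) else 0,
    hQ x hx i hi hne, fun l hl => ?_, rfl⟩
  · have h2 : ∑ l ∈ T.erase i0, (x l - lam i l + if l = i then (m i : ℤ) else 0) * w l =
        ∑ l ∈ T.erase i0, x l * w l - ∑ l ∈ T.erase i0, (lam i l : ℤ) * w l + m i * w i := by
      have h3 : ∀ l ∈ T.erase i0, (x l - lam i l + if l = i then (m i : ℤ) else 0) * w l =
          x l * w l - (lam i l : ℤ) * w l + (if l = i then (m i : ℤ) * w i else 0) := by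
        intro l _
        split_ifs with h
        · rw [h]
          ring
        · ring
      rw [Finset.sum_congr rfl h3, Finset.sum_add_distrib, Finset.sum_sub_distrib,
        Finset.sum_ite_eq' (T.erase i0) i, if_pos (Finset.mem_erase.2 ⟨hne, hi⟩)]
    rw [h2, hxv] at h1
    have h3 := hfire i hi hne
    linarith
  · beta_reduce
    have h3 := hxB l hl
    have h4 : (0 : ℤ) ≤ lam i l := by positivity
    split_ifs with h
    · rw [h] at h4 ⊢
      have h5 : (m i : ℤ) ≤ Bd i := by rw [hBd]; exact le_max_right _ _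
      linarith
    · linarith

/-- reducing: from a vector which is nonnegative outside `i0` to a nonnegative one -/
theorem down {T : Finset ι} {a m : ι → ℕ} {lam : ι → ι → ℕ} {i0 : ι}
    (hi0 : i0 ∈ T) (ha : ∀ i ∈ T, 0 < a i)
    (hreach : ∀ V ⊆ T, V.Nonempty → (∀ i ∈ V, ∀ l ∈ T, 0 < lam i l → l ∈ V) → i0 ∈ V)
    {e : ℤ} (he : ∑ i ∈ T.erase i0, ((m i : ℤ) - 1) * a i - a i0 < e)
    (Q : (ι → ℤ) → Prop) (hQe : ∀ x, Q x → ∑ i ∈ T, x i * a i = e)
    (hQ : ∀ x, Q x → ∀ i ∈ T, i ≠ i0 →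
      Q (fun l => x l + lam i l - if l = i then (m i : ℤ) else 0))
    {x0 : ι → ℤ} (hx0 : Q x0) (hx0' : ∀ i ∈ T, i ≠ i0 → 0 ≤ x0 i) :
    ∃ x, Q x ∧ ∀ i ∈ T, 0 ≤ x i := by
  classical
  by_contra hcon
  push Not at hcon
  obtain ⟨dist, hdist⟩ := exists_dist hreach
  obtain ⟨D, hD⟩ : ∃ D, ∀ i ∈ T, dist i ≤ D := ⟨T.sup dist, fun i hi => Finset.le_sup hi⟩
  obtain ⟨M, hM⟩ : ∃ M : ℕ, M = 1 + ∑ i ∈ T, m i := ⟨_, rfl⟩
  have hMm : ∀ i ∈ T, m i < M := by
    intro i hi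
    have := Finset.single_le_sum (f := m) (fun _ _ => Nat.zero_le _) hi
    omega
  have hM1 : 1 ≤ M := by omega
  obtain ⟨w, hw⟩ : ∃ w : ι → ℕ, w = fun i => if i = i0 then a i0 * M ^ (D + 1)
    else M ^ (D - dist i) := ⟨_, rfl⟩
  have hwle : ∀ i ∈ T, i ≠ i0 → w i ≤ M ^ (D + 1) * a i := by
    intro i hi hne
    rw [hw]
    simp only [if_neg hne]
    calc M ^ (D - dist i) ≤ M ^ (D + 1) := Nat.pow_le_pow_right hM1 (by omega)
      _ ≤ M ^ (D + 1) * a i := Nat.le_mul_of_pos_right _ (ha i hi)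
  have hw0 : w i0 = M ^ (D + 1) * a i0 := by
    rw [hw]
    simp only [if_true]
    ring
  -- firing increases the weight
  have hfire : ∀ i ∈ T, i ≠ i0 → m i * w i < ∑ l ∈ T, lam i l * w l := by
    intro i hi hne
    obtain ⟨l, hl, hil, hdl⟩ := hdist i hi hne
    have hDi := hD i hi
    have h1 : m i * w i < w l := by
      rw [hw]
      simp only [if_neg hne]
      have hpos : 0 < M ^ (D - dist i) := Nat.pow_pos hM1
      have h2 : m i * M ^ (D - dist i) < M * M ^ (D - dist i) :=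
        Nat.mul_lt_mul_of_pos_right (hMm i hi) hpos
      refine lt_of_lt_of_le h2 ?_
      rw [← pow_succ']
      split_ifs with h3
      · calc M ^ (D - dist i + 1) ≤ M ^ (D + 1) := Nat.pow_le_pow_right hM1 (by omega)
          _ ≤ a i0 * M ^ (D + 1) := Nat.le_mul_of_pos_left _ (ha i0 hi0)
      · exact Nat.pow_le_pow_right hM1 (by omega)
    have h2 : w l ≤ lam i l * w l := Nat.le_mul_of_pos_left _ hil
    have h3 := Finset.single_le_sum (f := fun l => lam i l * w l) (fun _ _ => Nat.zero_le _) hl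
    exact lt_of_lt_of_le h1 (h2.trans h3)
  have hbd : ∀ x : ι → ℤ, (∀ i ∈ T, i ≠ i0 → 0 ≤ x i) → ∑ i ∈ T, x i * a i = e →
      ∑ i ∈ T, x i * w i ≤ (M : ℤ) ^ (D + 1) * e := by
    intro x hx hxe
    rw [← hxe, Finset.mul_sum]
    refine Finset.sum_le_sum fun i hi => ?_
    by_cases hne : i = i0
    · rw [hne, hw0]
      push_cast
      exact le_of_eq (by ring)
    · have h1 : (w i : ℤ) ≤ (M : ℤ) ^ (D + 1) * a i := by exact_mod_cast hwle i hi hne
      have h2 := mul_le_mul_of_nonneg_left h1 (hx i hi hne)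
      linarith
  obtain ⟨v, ⟨x, hxQ, hx, hxv⟩, hmax⟩ := Int.exists_greatest_of_bdd
    (P := fun v => ∃ x : ι → ℤ, Q x ∧ (∀ i ∈ T, i ≠ i0 → 0 ≤ x i) ∧
      ∑ i ∈ T, x i * w i = v) ⟨(M : ℤ) ^ (D + 1) * e, by
        rintro v ⟨x, hxQ, hx, rfl⟩
        exact hbd x hx (hQe x hxQ)⟩ ⟨_, x0, hx0, hx0', rfl⟩
  have hxe := hQe x hxQ
  have hneg : x i0 < 0 := by
    by_contra hge
    push Not at hge
    obtain ⟨i, hi, hi2⟩ := hcon x hxQ
    by_cases hne : i = i0
    · rw [hne] at hi2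
      omega
    · exact absurd (hx i hi hne) (not_le.2 hi2)
  obtain ⟨i, hi, hmi⟩ : ∃ i ∈ T.erase i0, (m i : ℤ) ≤ x i := by
    by_contra hno
    push Not at hno
    have h1 : ∑ i ∈ T.erase i0, x i * a i ≤ ∑ i ∈ T.erase i0, ((m i : ℤ) - 1) * a i := by
      refine Finset.sum_le_sum fun i hi => ?_
      have := hno i hi
      exact mul_le_mul_of_nonneg_right (by linarith) (by positivity)
    have h2 : x i0 * a i0 + ∑ i ∈ T.erase i0, x i * (a i : ℤ) = e := by
      rw [Finset.add_sum_erase T (fun i => x i * (a i : ℤ)) hi0]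
      exact hxe
    have h3 : x i0 * a i0 ≤ (-1) * a i0 :=
      mul_le_mul_of_nonneg_right (by linarith) (by positivity)
    linarith
  obtain ⟨hne, hiT⟩ := Finset.mem_erase.1 hi
  have hsum : ∀ u : ι → ℕ, ∑ l ∈ T, (x l + lam i l - if l = i then (m i : ℤ) else 0) * u l =
      ∑ l ∈ T, x l * u l + ∑ l ∈ T, (lam i l : ℤ) * u l - m i * u i := by
    intro u
    have h1 : ∀ l ∈ T, (x l + lam i l - if l = i then (m i : ℤ) else 0) * u l =
        x l * u l + (lam i l : ℤ) * u l - (if l = i then (m i : ℤ) * u i else 0) := by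
      intro l _
      split_ifs with h
      · rw [h]
        ring
      · ring
    rw [Finset.sum_congr rfl h1, Finset.sum_sub_distrib, Finset.sum_add_distrib,
      Finset.sum_ite_eq' T i, if_pos hiT]
  have h1 := hmax _ ⟨fun l => x l + lam i l - if l = i then (m i : ℤ) else 0,
    hQ x hxQ i hiT hne, fun l hl hl0 => ?_, rfl⟩
  · rw [hsum, ← hxv] at h1
    have h2 : ((m i * w i : ℕ) : ℤ) < ((∑ l ∈ T, lam i l * w l : ℕ) : ℤ) := by
      exact_mod_cast hfire i hiT hne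
    push_cast at h2
    linarith
  · beta_reduce
    have h3 := hx l hl hl0
    split_ifs with h
    · rw [h]
      have : (0 : ℤ) ≤ lam i i := by positivity
      linarith
    · have : (0 : ℤ) ≤ lam i l := by positivity
      linarith

end Pool.Agent.Run7.h72.WF
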