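import Pool.Agent.Run7.h72.WF.Fire

/-!
Homomorphisms which are trivial on the exponents of the monomials of a given degree.
-/

set_option autoImplicit false

namespace Pool.Agent.Run7.h72.WF

open Finset Pool.Agent.Run7.h277.WF

variable {ι : Type} [DecidableEq ι]

/-- a homomorphism which is trivial on all nonnegative vectors of degree `e` is trivial on all
vectors of degree `e` -/
theorem kill {G : Type*} [CommGroup G] {g : ι → G} {T : Finset ι} {a m : ι → ℕ} {lam : ι → ι → ℕ}
    {i0 : ι} (hi0 : i0 ∈ T) (ha : ∀ i ∈ T, 0 < a i)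
    (hrel : ∀ i ∈ T, m i * a i = ∑ l ∈ T, lam i l * a l)
    (hreach : ∀ V ⊆ T, V.Nonempty → (∀ i ∈ V, ∀ l ∈ T, 0 < lam i l → l ∈ V) → i0 ∈ V)
    {z : ι → ℤ} (hz : ∑ i ∈ T, z i * a i = 1) {e : ℤ}
    (he : ∑ i ∈ T.erase i0, ((m i : ℤ) - 1) * a i - a i0 < e)
    (he' : ∀ i ∈ T, i ≠ i0 → ∑ i ∈ T.erase i0, ((m i : ℤ) - 1) * a i - a i0 < e - m i * a i)
    (hmono : ∀ y : ι → ℕ, ∑ i ∈ T, (y i : ℤ) * a i = e → ∏ i ∈ T, g i ^ y i = 1)
    (x : ι → ℤ) (hx : ∑ i ∈ T, x i * a i = e) : ∏ i ∈ T, g i ^ x i = 1 := by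
  classical
  -- the relations are killed
  have hkill : ∀ i ∈ T, i ≠ i0 → ∏ l ∈ T, g l ^ lam i l = g i ^ m i := by
    intro i hi hne
    obtain ⟨y, hy⟩ := chip hi0 ha hrel hreach hz (he' i hi hne)
    have h1 := hmono (fun l => y l + lam i l) (by
      have h2 : ((m i * a i : ℕ) : ℤ) = ((∑ l ∈ T, lam i l * a l : ℕ) : ℤ) := by
        exact_mod_cast hrel i hi
      push_cast at h2 ⊢
      simp only [add_mul, Finset.sum_add_distrib]
      rw [hy, ← h2]
      ring)
    have h3 := hmono (fun l => y l + if l = i then m i else 0) (by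
      push_cast
      simp only [add_mul, Finset.sum_add_distrib, ite_mul, zero_mul]
      rw [hy, Finset.sum_ite_eq' T i, if_pos hi]
      ring)
    simp only [pow_add, Finset.prod_mul_distrib] at h1 h3
    have h4 : ∏ l ∈ T, g l ^ (if l = i then m i else 0) = g i ^ m i := by
      rw [Finset.prod_eq_single_of_mem i hi]
      · rw [if_pos rfl]
      · intro l _ hl
        rw [if_neg hl, pow_zero]
    rw [h4] at h3
    exact mul_left_cancel (h1.trans h3.symm)
  by_contra hcon
  -- the predicate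
  have hstep : ∀ (x : ι → ℤ) (i : ι), i ∈ T → i ≠ i0 →
      (∑ l ∈ T, (x l + lam i l - if l = i then (m i : ℤ) else 0) * a l = ∑ l ∈ T, x l * a l ∧
      ∏ l ∈ T, g l ^ (x l + lam i l - if l = i then (m i : ℤ) else 0) = ∏ l ∈ T, g l ^ x l) := by
    intro x i hi hne
    constructor
    · have h1 : ∀ l ∈ T, (x l + lam i l - if l = i then (m i : ℤ) else 0) * a l =
          x l * a l + (lam i l : ℤ) * a l - (if l = i then (m i : ℤ) * a i else 0) := by
        intro l _
        split_ifs with h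
        · rw [h]
          ring
        · ring
      have h2 : ((m i * a i : ℕ) : ℤ) = ((∑ l ∈ T, lam i l * a l : ℕ) : ℤ) := by
        exact_mod_cast hrel i hi
      push_cast at h2
      rw [Finset.sum_congr rfl h1, Finset.sum_sub_distrib, Finset.sum_add_distrib,
        Finset.sum_ite_eq' T i, if_pos hi, ← h2]
      ring
    · have h4 : ∏ l ∈ T, g l ^ (if l = i then (m i : ℤ) else 0) = g i ^ m i := by
        rw [Finset.prod_eq_single_of_mem i hi]
        · rw [if_pos rfl, zpow_natCast]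
        · intro l _ hl
          rw [if_neg hl, zpow_zero]
      simp only [zpow_add, zpow_sub, Finset.prod_mul_distrib, Finset.prod_inv_distrib]
      rw [h4, ← hkill i hi hne]
      simp
  obtain ⟨x1, hx1, hx1'⟩ := up hi0 ha hrel hreach
    (fun x => ∑ i ∈ T, x i * a i = e ∧ ∏ i ∈ T, g i ^ x i ≠ 1) (by
      rintro x ⟨h1, h2⟩ i hi hne
      have h3 := hstep (fun l => x l - lam i l + if l = i then (m i : ℤ) else 0) i hi hne
      have h4 : (fun l => (x l - lam i l + if l = i then (m i : ℤ) else 0) + lam i l -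
          if l = i then (m i : ℤ) else 0) = x := by
        funext l
        ring
      constructor
      · rw [← h3.1]
        have h5 := congrArg (fun x : ι → ℤ => ∑ l ∈ T, x l * a l) h4
        rw [h5]
        exact h1
      · intro h6
        rw [← h3.2] at h6
        have h5 := congrArg (fun x : ι → ℤ => ∏ l ∈ T, g l ^ x l) h4
        rw [h5] at h6
        exact h2 h6) (x0 := x) ⟨hx, hcon⟩
  obtain ⟨x2, ⟨hx2, hx2'⟩, hx2''⟩ := down hi0 ha hreach he
    (fun x => ∑ i ∈ T, x i * a i = e ∧ ∏ i ∈ T, g i ^ x i ≠ 1) (fun x h => h.1) (by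
      rintro x ⟨h1, h2⟩ i hi hne
      have h3 := hstep x i hi hne
      exact ⟨h3.1.trans h1, by rw [h3.2]; exact h2⟩) hx1 hx1'
  apply hx2'
  rw [← hmono (fun i => (x2 i).toNat) (by
    rw [← hx2]
    refine Finset.sum_congr rfl fun i hi => ?_
    rw [Int.toNat_of_nonneg (hx2'' i hi)])]
  refine Finset.prod_congr rfl fun i hi => ?_
  rw [← zpow_natCast, Int.toNat_of_nonneg (hx2'' i hi)]

/-- the ratios of the coordinates of two points with the same values of all monomials of
degree `e` -/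
theorem ratio {σ : Type} [Fintype σ] [DecidableEq σ] {B : Type*} [CommRing B] {v y : σ → B}
    {T : Finset σ} {a m : σ → ℕ} {lam : σ → σ → ℕ} {i0 : σ} (hi0 : i0 ∈ T)
    (ha : ∀ i ∈ T, 0 < a i) (hrel : ∀ i ∈ T, m i * a i = ∑ l ∈ T, lam i l * a l)
    (hreach : ∀ V ⊆ T, V.Nonempty → (∀ i ∈ V, ∀ l ∈ T, 0 < lam i l → l ∈ V) → i0 ∈ V)
    {z : σ → ℤ} (hz : ∑ i ∈ T, z i * a i = 1) {e : ℕ}
    (he : ∑ i ∈ T.erase i0, ((m i : ℤ) - 1) * a i - a i0 < e)
    (he' : ∀ i ∈ T, i ≠ i0 → ∑ i ∈ T.erase i0, ((m i : ℤ) - 1) * a i - a i0 < e - m i * a i)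
    (he'' : ∀ i ∈ T, ∑ i ∈ T.erase i0, ((m i : ℤ) - 1) * a i - a i0 < e - a i)
    (hv : ∀ i ∈ T, IsUnit (v i))
    (hmono : ∀ q : σ → ℕ, ∑ i, q i * a i = e → ∏ i, y i ^ q i = ∏ i, v i ^ q i) :
    ∃ t : Bˣ, ∀ l, ∑ i ∈ T.erase i0, ((m i : ℤ) - 1) * a i - a i0 < e - a l →
      y l = t ^ a l * v l := by
  classical
  -- monomials of the form `x_l * q`, with `q` supported in `T`
  have hq : ∀ l, ∑ i ∈ T.erase i0, ((m i : ℤ) - 1) * a i - a i0 < e - a l →
      ∃ q : σ → ℕ, ∑ i ∈ T, q i * a i + a l = e ∧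
        y l * ∏ i ∈ T, y i ^ q i = v l * ∏ i ∈ T, v i ^ q i := by
    intro l hl
    obtain ⟨q, hq⟩ := chip hi0 ha hrel hreach hz hl
    have h1 : ∑ i ∈ T, q i * a i + a l = e := by
      have : ((∑ i ∈ T, q i * a i + a l : ℕ) : ℤ) = (e : ℤ) := by
        push_cast
        rw [hq]
        ring
      exact_mod_cast this
    refine ⟨q, h1, ?_⟩
    have h2 := hmono (fun i => (if i = l then 1 else 0) + if i ∈ T then q i else 0) (by
      simp only [add_mul, Finset.sum_add_distrib, ite_mul, one_mul, zero_mul]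
      rw [Finset.sum_ite_eq' Finset.univ l, if_pos (Finset.mem_univ l), Finset.sum_ite_mem,
        Finset.univ_inter]
      omega)
    have h3 : ∀ u : σ → B, ∏ i, u i ^ ((if i = l then 1 else 0) + if i ∈ T then q i else 0) =
        u l * ∏ i ∈ T, u i ^ q i := by
      intro u
      simp only [pow_add, Finset.prod_mul_distrib]
      congr 1
      · rw [Finset.prod_eq_single_of_mem l (Finset.mem_univ l)]
        · rw [if_pos rfl, pow_one]
        · intro i _ hi
          rw [if_neg hi, pow_zero]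
      · rw [← Finset.prod_subset (Finset.subset_univ T) (fun i _ hi => by
          rw [if_neg hi, pow_zero])]
        exact Finset.prod_congr rfl fun i hi => by rw [if_pos hi]
    rw [h3, h3] at h2
    exact h2
  -- the coordinates of `y` are units
  have hprodv : ∀ q : σ → ℕ, IsUnit (∏ i ∈ T, v i ^ q i) := fun q =>
    Finset.prod_induction _ IsUnit (fun _ _ hx hy => hx.mul hy) isUnit_one
      (fun i hi => (hv i hi).pow _)
  have hy : ∀ i ∈ T, IsUnit (y i) := by
    intro i hi
    obtain ⟨q, -, hq'⟩ := hq i (he'' i hi)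
    have h1 : IsUnit (y i * ∏ i ∈ T, y i ^ q i) := by
      rw [hq']
      exact (hv i hi).mul (hprodv q)
    exact isUnit_of_mul_isUnit_left h1
  choose! V hV using hv
  choose! Y hY using hy
  -- the homomorphism
  have hphi : ∀ q : σ → ℕ, ∏ i ∈ T, y i ^ q i =
      ((∏ i ∈ T, (Y i / V i) ^ q i : Bˣ) : B) * ∏ i ∈ T, v i ^ q i := by
    intro q
    have h1 : ∏ i ∈ T, v i ^ q i = ((∏ i ∈ T, V i ^ q i : Bˣ) : B) := by
      rw [Units.coe_prod]
      exact Finset.prod_congr rfl fun i hi => by rw [Units.val_pow_eq_pow_val, hV i hi]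
    have h2 : ∏ i ∈ T, y i ^ q i = ((∏ i ∈ T, Y i ^ q i : Bˣ) : B) := by
      rw [Units.coe_prod]
      exact Finset.prod_congr rfl fun i hi => by rw [Units.val_pow_eq_pow_val, hY i hi]
    rw [h1, h2, ← Units.val_mul, ← Finset.prod_mul_distrib]
    congr 1
    refine Finset.prod_congr rfl fun i _ => ?_
    rw [← mul_pow, div_mul_cancel]
  have hK := kill (g := fun i => Y i / V i) hi0 ha hrel hreach hz he he' (fun q hqe => by
    have h1 := hphi q
    have h2 := hmono (fun i => if i ∈ T then q i else 0) (by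
      simp only [ite_mul, zero_mul]
      rw [Finset.sum_ite_mem, Finset.univ_inter]
      exact_mod_cast hqe)
    have h3 : ∀ u : σ → B, ∏ i, u i ^ (if i ∈ T then q i else 0) = ∏ i ∈ T, u i ^ q i := by
      intro u
      rw [← Finset.prod_subset (Finset.subset_univ T) (fun i _ hi => by
        rw [if_neg hi, pow_zero])]
      exact Finset.prod_congr rfl fun i hi => by rw [if_pos hi]
    rw [h3, h3, h1] at h2
    have h4 : ((∏ i ∈ T, (Y i / V i) ^ q i : Bˣ) : B) * ∏ i ∈ T, v i ^ q i =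
        1 * ∏ i ∈ T, v i ^ q i := by rw [one_mul, h2]
    have h5 := (hprodv q).mul_right_cancel h4
    exact Units.ext h5)
  -- the unit
  obtain ⟨t, ht⟩ : ∃ t : Bˣ, t = ∏ i ∈ T, (Y i / V i) ^ z i := ⟨_, rfl⟩
  have hte : t ^ e = 1 := by
    have h1 := hK (fun i => e * z i) (by
      have h2 : ∑ i ∈ T, (e : ℤ) * z i * a i = e * ∑ i ∈ T, z i * a i := by
        rw [Finset.mul_sum]
        exact Finset.sum_congr rfl fun i _ => by ring
      rw [h2, hz, mul_one])
    rw [ht, ← Finset.prod_pow, ← h1]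
    refine Finset.prod_congr rfl fun i _ => ?_
    rw [mul_comm, zpow_mul, zpow_natCast]
  have hg : ∀ i ∈ T, Y i / V i = t ^ a i := by
    intro i hi
    have h1 := hK (fun l => (if l = i then 1 else 0) + (e - a i) * z l) (by
      simp only [add_mul, Finset.sum_add_distrib, ite_mul, one_mul, zero_mul]
      rw [Finset.sum_ite_eq' T i, if_pos hi]
      have h2 : ∑ l ∈ T, ((e : ℤ) - a i) * z l * a l = (e - a i) * ∑ l ∈ T, z l * a l := by
        rw [Finset.mul_sum]
        exact Finset.sum_congr rfl fun i _ => by ring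
      rw [h2, hz]
      ring)
    simp only [zpow_add, Finset.prod_mul_distrib] at h1
    rw [Finset.prod_eq_single_of_mem i hi (fun l _ hl => by rw [if_neg hl, zpow_zero]),
      if_pos rfl, zpow_one] at h1
    have h3 : ∏ l ∈ T, (Y l / V l) ^ (((e : ℤ) - a i) * z l) = t ^ ((e : ℤ) - a i) := by
      rw [ht, ← Finset.prod_zpow]
      refine Finset.prod_congr rfl fun l _ => ?_
      rw [mul_comm, zpow_mul]
    rw [h3, zpow_sub, zpow_natCast, hte, one_mul, zpow_natCast, mul_inv_eq_one] at h1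
    exact h1
  refine ⟨t, fun l hl => ?_⟩
  obtain ⟨q, hqe, hqy⟩ := hq l hl
  have h1 : (∏ i ∈ T, (Y i / V i) ^ q i : Bˣ) = t ^ (∑ i ∈ T, q i * a i) := by
    rw [← Finset.prod_pow_eq_pow_sum]
    refine Finset.prod_congr rfl fun i hi => ?_
    rw [hg i hi, ← pow_mul, mul_comm]
  rw [hphi q, h1, ← mul_assoc] at hqy
  have h2 := (hprodv q).mul_right_cancel hqy
  have h3 : t ^ a l * t ^ (∑ i ∈ T, q i * a i) = 1 := by
    rw [← pow_add, add_comm, hqe, hte]
  rw [← h2, mul_comm (y l), ← mul_assoc, ← Units.val_pow_eq_pow_val, ← Units.val_mul, h3,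
    Units.val_one, one_mul]

end Pool.Agent.Run7.h72.WF
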