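import Pool.Agent.Run7.h72.WF.Kill
import Pool.Agent.Run7.h277.WF.Main
import Pool.Agent.H61.Fu.Alg

/-!
Points of weighted complete intersections with pairwise coprime weights are determined by the
values of the monomials of degree `e`.
-/

set_option autoImplicit false

namespace Pool.Agent.Run7.h72.WF

open Finset MvPolynomial Pool.Agent.Run7.h277.WF

variable {N : ℕ} {B : Type*} [CommRing B] [Algebra ℂ B]

/-- the variables which occur linearly in an equation of their degree -/
theorem linear_step {c : ℕ} {a : Fin N → ℕ} (ha : ∀ i, 0 < a i)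
    (hcop : ∀ i i', i ≠ i' → Nat.Coprime (a i) (a i')) {d : Fin c → ℕ}
    {f : Fin c → MvPolynomial (Fin N) ℂ} (hf : ∀ j, IsWeightedHomogeneous a (f j) (d j))
    {v : Fin N → ℂ} (hfv : ∀ j, eval v (f j) = 0) {y : Fin N → B} (hfy : ∀ j, aeval y (f j) = 0)
    (t : Bˣ) (hlin : ∀ l, y l = (t : B) ^ a l * algebraMap ℂ B (v l) ∨
      (1 < a l ∧ ∃ j, d j = a l ∧ coeff (Finsupp.single l 1) (f j) ≠ 0)) :
    ∀ l, y l = (t : B) ^ a l * algebraMap ℂ B (v l) := by
  have key : ∀ A : ℕ, ∀ l, a l = A → y l = (t : B) ^ a l * algebraMap ℂ B (v l) := by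
    intro A
    induction A using Nat.strong_induction_on with
    | _ A ih =>
      intro l hl
      rcases hlin l with h | ⟨hl1, j, hdj, hcoef⟩
      · exact h
      have h1 := Pool.Agent.H61.Fu.comp (B := B) (f j) v y (hfv j) (hfy j) (Finsupp.single l 1)
        hcoef ((t : B) ^ a l) (by
          intro m hm hne
          have hw := weight_eq (hf j) hm
          rw [hdj] at hw
          have hlt : ∀ i, m i ≠ 0 → a i < a l := by
            intro i hi
            have h2 : m i * a i ≤ a l := by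
              rw [← hw]
              exact Finset.single_le_sum (f := fun i => m i * a i) (fun _ _ => Nat.zero_le _)
                (Finset.mem_univ i)
            have h3 : a i ≤ m i * a i := Nat.le_mul_of_pos_left _ (Nat.pos_of_ne_zero hi)
            refine lt_of_le_of_ne (h3.trans h2) fun h4 => ?_
            by_cases hil : i = l
            · rw [hil] at hi h2 h3
              have h5 : m l = 1 := by
                have h6 : m l * a l ≤ 1 * a l := by rw [one_mul]; exact h2
                have h7 := Nat.le_of_mul_le_mul_right h6 (ha l)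
                omega
              apply hne
              ext k
              by_cases hkl : k = l
              · rw [hkl, h5]; simp
              · rw [Finsupp.single_eq_of_ne hkl]
                have h8 : m l * a l + ∑ k ∈ Finset.univ.erase l, m k * a k = a l := by
                  rw [Finset.add_sum_erase _ (fun k => m k * a k) (Finset.mem_univ l)]
                  exact hw
                rw [h5, one_mul] at h8
                have h9 : ∑ k ∈ Finset.univ.erase l, m k * a k = 0 := by omega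
                have h10 := (Finset.sum_eq_zero_iff.1 h9) k
                  (Finset.mem_erase.2 ⟨hkl, Finset.mem_univ _⟩)
                rcases Nat.mul_eq_zero.1 h10 with h11 | h11
                · exact h11
                · have := ha k
                  omega
            · have h5 := hcop i l hil
              rw [h4, Nat.coprime_self] at h5
              omega
          have h2 : ∀ i, y i ^ m i = ((t : B) ^ (m i * a i)) * algebraMap ℂ B (v i) ^ m i := by
            intro i
            by_cases hi : m i = 0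
            · rw [hi]; simp
            · rw [ih (a i) (by rw [← hl]; exact hlt i hi) i rfl, mul_pow, ← pow_mul,
                mul_comm (a i)]
          rw [Finset.prod_congr rfl fun i _ => h2 i, Finset.prod_mul_distrib,
            Finset.prod_pow_eq_pow_sum, hw])
      rw [Pool.Agent.H61.Fu.prod_single, Pool.Agent.H61.Fu.prod_single, pow_one, pow_one] at h1
      exact h1
  intro l
  exact key (a l) l rfl

/-- the degrees and the exponents of the pure powers -/
theorem setup {c : ℕ} {a : Fin N → ℕ} (ha : ∀ i, 0 < a i) {d : Fin c → ℕ} (hd : ∀ j, 0 < d j)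
    {f : Fin c → MvPolynomial (Fin N) ℂ} (hf : ∀ j, IsWeightedHomogeneous a (f j) (d j))
    (J : {i // 1 < a i} → Fin c) (hJ : Function.Injective J)
    (hpure : ∀ i, eval (Pi.single i.1 1 : Fin N → ℂ) (f (J i)) ≠ 0) {e : ℕ}
    (he : ∑ j, d j + N + 1 ≤ e + ∑ i, a i + c) :
    ∃ D M : Fin N → ℕ, (∀ i, ¬ 1 < a i → D i = 1) ∧ (∀ i (hi : 1 < a i), D i = d (J ⟨i, hi⟩)) ∧
      (∀ i, M i * a i = D i ∧ ∀ hi : 1 < a i,
        (Finsupp.single i (M i) : Fin N →₀ ℕ) ∈ (f (J ⟨i, hi⟩)).support) ∧
      (∀ i, 0 < D i) ∧ (∀ i, 0 < M i) ∧ (∀ i, a i ≤ D i) ∧ ∑ i, ((D i : ℤ) - a i) + 1 ≤ e := by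
  classical
  -- the pure powers
  obtain ⟨D, hD⟩ : ∃ D : Fin N → ℕ, ∀ i, D i = if h : 1 < a i then d (J ⟨i, h⟩) else 1 :=
    ⟨_, fun _ => rfl⟩
  have hD1 : ∀ i, ¬ 1 < a i → D i = 1 := fun i hi => by rw [hD, dif_neg hi]
  have hD2 : ∀ i (hi : 1 < a i), D i = d (J ⟨i, hi⟩) := fun i hi => by rw [hD, dif_pos hi]
  have hpow : ∀ i (hi : 1 < a i), ∃ M : ℕ,
      (Finsupp.single i M : Fin N →₀ ℕ) ∈ (f (J ⟨i, hi⟩)).support ∧ M * a i = d (J ⟨i, hi⟩) := by
    intro i hi
    obtain ⟨α, hα, hαv⟩ := exists_monomial (hpure ⟨i, hi⟩)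
    have h1 : α = Finsupp.single i (α i) := by
      ext l
      by_cases hl : l = i
      · subst hl; simp
      · rw [Finsupp.single_eq_of_ne hl]
        by_contra hcon
        exact hαv l hcon (by rw [Pi.single_eq_of_ne hl])
    refine ⟨α i, h1 ▸ hα, ?_⟩
    have h2 := weight_eq (hf (J ⟨i, hi⟩)) hα
    rw [Finset.sum_eq_single i] at h2
    · exact h2
    · intro l _ hl
      have : α l = 0 := by
        rw [h1, Finsupp.single_eq_of_ne hl]
      rw [this, zero_mul]
    · intro h; exact absurd (Finset.mem_univ i) h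
  obtain ⟨M, hM⟩ : ∃ M : Fin N → ℕ, ∀ i, M i * a i = D i ∧ ∀ hi : 1 < a i,
      (Finsupp.single i (M i) : Fin N →₀ ℕ) ∈ (f (J ⟨i, hi⟩)).support := by
    have h1 : ∀ i, ∃ M : ℕ, M * a i = D i ∧ ∀ hi : 1 < a i,
        (Finsupp.single i M : Fin N →₀ ℕ) ∈ (f (J ⟨i, hi⟩)).support := by
      intro i
      by_cases hi : 1 < a i
      · obtain ⟨M, h1, h2⟩ := hpow i hi
        exact ⟨M, by rw [h2, hD2 i hi], fun _ => h1⟩
      · refine ⟨1, ?_, fun h => absurd h hi⟩
        have := ha i
        rw [hD1 i hi]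
        omega
    choose M hM using h1
    exact ⟨M, hM⟩
  have hDpos : ∀ i, 0 < D i := by
    intro i
    by_cases hi : 1 < a i
    · rw [hD2 i hi]; exact hd _
    · rw [hD1 i hi]; exact Nat.one_pos
  have hMpos : ∀ i, 0 < M i := by
    intro i
    rcases Nat.eq_zero_or_pos (M i) with h | h
    · have h1 := (hM i).1
      rw [h, zero_mul] at h1
      have := hDpos i
      omega
    · exact h
  have haD : ∀ i, a i ≤ D i := fun i => by
    rw [← (hM i).1]
    exact Nat.le_mul_of_pos_left _ (hMpos i)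
  -- the numerical condition
  have hnum : ∑ i, ((D i : ℤ) - a i) + 1 ≤ e := by
    have h1 : ∑ i : {i // 1 < a i}, ((d (J i) : ℤ) - 1) ≤ ∑ j, ((d j : ℤ) - 1) := by
      have h2 : ∑ j ∈ Finset.univ.map ⟨J, hJ⟩, ((d j : ℤ) - 1) =
          ∑ i : {i // 1 < a i}, ((d (J i) : ℤ) - 1) := by
        rw [Finset.sum_map]
        rfl
      rw [← h2]
      refine Finset.sum_le_sum_of_subset_of_nonneg (Finset.subset_univ _) fun j _ _ => ?_
      have := hd j
      omega
    have h3 : ∑ i : {i // 1 < a i}, ((d (J i) : ℤ) - 1) =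
        ∑ i ∈ Finset.univ.filter (fun i => 1 < a i), ((D i : ℤ) - 1) := by
      rw [Finset.sum_subtype (Finset.univ.filter (fun i => 1 < a i)) (p := fun i => 1 < a i)
        (fun i => by simp) (fun i => (D i : ℤ) - 1)]
      refine Finset.sum_congr rfl fun i _ => ?_
      rw [hD2 i.1 i.2]
    have h4 : ∑ i ∈ Finset.univ.filter (fun i => 1 < a i), ((D i : ℤ) - 1) =
        ∑ i, ((D i : ℤ) - 1) := by
      refine Finset.sum_subset (Finset.filter_subset _ _) fun i _ hi => ?_
      rw [hD1 i (fun h => hi (Finset.mem_filter.2 ⟨Finset.mem_univ _, h⟩))]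
      simp
    have h5 : ((∑ j, d j + N + 1 : ℕ) : ℤ) ≤ ((e + ∑ i, a i + c : ℕ) : ℤ) := by exact_mod_cast he
    push_cast at h5
    rw [h3, h4, Finset.sum_sub_distrib, Finset.sum_sub_distrib] at h1
    simp only [Finset.sum_const, Finset.card_univ, Fintype.card_fin, nsmul_eq_mul, mul_one] at h1
    rw [Finset.sum_sub_distrib]
    linarith
  exact ⟨D, M, hD1, hD2, hM, hDpos, hMpos, haD, hnum⟩

theorem e_pos {c : ℕ} {a : Fin N → ℕ} (ha : ∀ i, 0 < a i) {d : Fin c → ℕ} (hd : ∀ j, 0 < d j)
    {f : Fin c → MvPolynomial (Fin N) ℂ} (hf : ∀ j, IsWeightedHomogeneous a (f j) (d j))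
    (J : {i // 1 < a i} → Fin c) (hJ : Function.Injective J)
    (hpure : ∀ i, eval (Pi.single i.1 1 : Fin N → ℂ) (f (J i)) ≠ 0) {e : ℕ}
    (he : ∑ j, d j + N + 1 ≤ e + ∑ i, a i + c) : 0 < e := by
  obtain ⟨D, M, -, -, -, -, -, haD, hnum⟩ := setup ha hd hf J hJ hpure he
  have h1 : 0 ≤ ∑ i, ((D i : ℤ) - a i) := Finset.sum_nonneg fun i _ => by
    have := haD i
    omega
  omega

theorem main {c : ℕ} {a : Fin N → ℕ} (ha : ∀ i, 0 < a i)
    (hcop : ∀ i i', i ≠ i' → Nat.Coprime (a i) (a i')) {d : Fin c → ℕ} (hd : ∀ j, 0 < d j)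
    {f : Fin c → MvPolynomial (Fin N) ℂ} (hf : ∀ j, IsWeightedHomogeneous a (f j) (d j))
    (J : {i // 1 < a i} → Fin c) (hJ : Function.Injective J)
    (hpure : ∀ i, eval (Pi.single i.1 1 : Fin N → ℂ) (f (J i)) ≠ 0) {e : ℕ}
    (he : ∑ j, d j + N + 1 ≤ e + ∑ i, a i + c) {v : Fin N → ℂ} (hv : v ≠ 0)
    (hfv : ∀ j, eval v (f j) = 0) {y : Fin N → B}
    (hmono : ∀ q : Fin N → ℕ, ∑ i, q i * a i = e →
      ∏ i, y i ^ q i = ∏ i, algebraMap ℂ B (v i) ^ q i)
    (hfy : ∀ j, aeval y (f j) = 0) :
    ∃ t : Bˣ, ∀ i, y i = (t : B) ^ a i * algebraMap ℂ B (v i) := by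
  classical
  obtain ⟨D, M, hD1, hD2, hM, hDpos, hMpos, haD, hnum⟩ := setup ha hd hf J hJ hpure he
  -- it is enough to find `t` for the variables which are not linear in an equation
  suffices hmain : ∃ t : Bˣ, ∀ l, (a l = 1 ∨ 2 * a l ≤ D l) →
      y l = (t : B) ^ a l * algebraMap ℂ B (v l) by
    obtain ⟨t, ht⟩ := hmain
    refine ⟨t, linear_step ha hcop hf hfv hfy t fun l => ?_⟩
    by_cases hl : a l = 1 ∨ 2 * a l ≤ D l
    · exact Or.inl (ht l hl)
    · right
      push Not at hl
      have h1 : 1 < a l := by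
        have := ha l
        omega
      have h2 : M l = 1 := by
        have h3 := (hM l).1
        have h4 := hMpos l
        by_contra h5
        have h6 : 2 ≤ M l := by omega
        have h7 : 2 * a l ≤ M l * a l := Nat.mul_le_mul_right _ h6
        omega
      refine ⟨h1, J ⟨l, h1⟩, ?_, ?_⟩
      · rw [← hD2 l h1, ← (hM l).1, h2, one_mul]
      · have h3 := (hM l).2 h1
        rw [h2] at h3
        exact MvPolynomial.mem_support_iff.1 h3
  have hsumle : ∀ T : Finset (Fin N), ∑ i ∈ T, ((D i : ℤ) - a i) + 1 ≤ e := by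
    intro T
    refine le_trans ?_ hnum
    have := Finset.sum_le_sum_of_subset_of_nonneg (f := fun i => (D i : ℤ) - a i)
      (Finset.subset_univ T) (fun i _ _ => by
        have := haD i
        show (0 : ℤ) ≤ (D i : ℤ) - a i
        omega)
    linarith
  set S : Finset (Fin N) := Finset.univ.filter fun i => v i ≠ 0 with hS
  have hmemS : ∀ i, i ∈ S ↔ v i ≠ 0 := fun i => by simp [hS]
  have hSne : S.Nonempty := by
    obtain ⟨i, hi⟩ := Function.ne_iff.1 hv
    exact ⟨i, (hmemS i).2 hi⟩
  have hunit : ∀ i ∈ S, IsUnit (algebraMap ℂ B (v i)) := fun i hi =>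
    (isUnit_iff_ne_zero.2 ((hmemS i).1 hi)).map (algebraMap ℂ B)
  by_cases hone : ∃ i ∈ S, a i = 1
  · -- a nonzero coordinate of weight one
    obtain ⟨i0, hi0, hi1⟩ := hone
    have h0 := hsumle {i0}
    rw [Finset.sum_singleton] at h0
    have hD0 := haD i0
    obtain ⟨t, ht⟩ := ratio (T := {i0}) (a := a) (m := fun _ => 0) (lam := fun _ _ => 0)
      (i0 := i0) (z := fun _ => 1) (e := e) (v := fun i => algebraMap ℂ B (v i)) (y := y)
      (Finset.mem_singleton_self i0) (fun i _ => ha i) (fun i _ => by simp)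
      (fun V hV hVne _ => by
        obtain ⟨x, hx⟩ := hVne
        rw [← Finset.mem_singleton.1 (hV hx)]
        exact hx) (by simp [hi1]) (by simp [hi1]; omega)
      (fun i hi hne => absurd (Finset.mem_singleton.1 hi) hne)
      (fun i hi => by
        rw [Finset.mem_singleton.1 hi]
        simp [hi1]
        omega)
      (fun i hi => by
        rw [Finset.mem_singleton.1 hi]
        exact hunit i0 hi0) hmono
    refine ⟨t, fun l hl => ?_⟩
    apply ht l
    have h1 := hsumle {l}
    rw [Finset.sum_singleton] at h1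
    have h2 := haD l
    simp [hi1]
    rcases hl with hl | hl
    · rw [hl]
      omega
    · omega
  push Not at hone
  have ha2 : ∀ i ∈ S, 1 < a i := by
    intro i hi
    have := hone i hi
    have := ha i
    omega
  -- the second monomials
  have hsec : ∀ i ∈ S, ∃ μ : Fin N → ℕ, M i * a i = ∑ l ∈ S, μ l * a l ∧ μ i < M i := by
    intro i hi
    have hi2 := ha2 i hi
    obtain ⟨β, hβ, hβne, hβv⟩ := exists_monomial' (hfv (J ⟨i, hi2⟩)) ((hM i).2 hi2) (by
      intro l hl
      by_cases hli : l = i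
      · rw [hli]; exact (hmemS i).1 hi
      · exact absurd (Finsupp.single_eq_of_ne hli) hl)
    have h1 := weight_eq (hf (J ⟨i, hi2⟩)) hβ
    have h2 : ∑ l ∈ S, β l * a l = d (J ⟨i, hi2⟩) := by
      rw [← h1]
      refine Finset.sum_subset (Finset.subset_univ S) fun l _ hl => ?_
      have h3 : β l = 0 := by
        by_contra hcon
        exact hl ((hmemS l).2 (hβv l hcon))
      rw [h3, zero_mul]
    refine ⟨fun l => β l, by rw [(hM i).1, hD2 i hi2, h2], ?_⟩
    have h4 : β i * a i + ∑ l ∈ Finset.univ.erase i, β l * a l = M i * a i := by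
      rw [Finset.add_sum_erase _ (fun l => β l * a l) (Finset.mem_univ i), h1, (hM i).1, hD2 i hi2]
    by_contra hcon
    push Not at hcon
    have h5 : M i * a i ≤ β i * a i := Nat.mul_le_mul_right _ hcon
    have h6 : ∑ l ∈ Finset.univ.erase i, β l * a l = 0 := by omega
    have h7 : β i = M i := by
      rw [h6, add_zero] at h4
      exact Nat.eq_of_mul_eq_mul_right (ha i) h4
    apply hβne
    ext l
    by_cases hli : l = i
    · rw [hli, h7]; simp
    · rw [Finsupp.single_eq_of_ne hli]
      have h8 := (Finset.sum_eq_zero_iff.1 h6) l (Finset.mem_erase.2 ⟨hli, Finset.mem_univ _⟩)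
      rcases Nat.mul_eq_zero.1 h8 with h9 | h9
      · exact h9
      · have := ha l
        omega
  choose! μ hμ hμlt using hsec
  -- a minimal closed subset
  set P : Finset (Finset (Fin N)) := S.powerset.filter fun T => T.Nonempty ∧
    ∀ i ∈ T, ∀ l ∈ S, 0 < μ i l → l ∈ T with hP
  have hPne : P.Nonempty := ⟨S, Finset.mem_filter.2 ⟨Finset.mem_powerset_self S, hSne,
    fun i _ l hl _ => hl⟩⟩
  obtain ⟨T, hTP, hTmin⟩ := Finset.exists_min_image P Finset.card hPne
  obtain ⟨hTS, hTne, hTcl⟩ := Finset.mem_filter.1 hTP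
  rw [Finset.mem_powerset] at hTS
  obtain ⟨i0, hi0, hmax⟩ := Finset.exists_max_image T D hTne
  have hreach : ∀ V ⊆ T, V.Nonempty → (∀ i ∈ V, ∀ l ∈ T, 0 < μ i l → l ∈ V) → i0 ∈ V := by
    intro V hVT hVne hVcl
    have h1 := hTmin V (Finset.mem_filter.2 ⟨Finset.mem_powerset.2 (hVT.trans hTS), hVne,
      fun i hi l hl hil => hVcl i hi l (hTcl i (hVT hi) l hl hil) hil⟩)
    rw [Finset.eq_of_subset_of_card_le hVT h1]
    exact hi0
  have hrel : ∀ i ∈ T, M i * a i = ∑ l ∈ T, μ i l * a l := by
    intro i hi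
    rw [hμ i (hTS hi)]
    symm
    refine Finset.sum_subset hTS fun l hl hlT => ?_
    have h1 : μ i l = 0 := by
      by_contra hcon
      exact hlT (hTcl i hi l hl (Nat.pos_of_ne_zero hcon))
    rw [h1, zero_mul]
  -- two elements
  obtain ⟨i1, hi1, hne1⟩ : ∃ i1 ∈ T, i1 ≠ i0 := by
    by_contra hcon
    push Not at hcon
    have h1 : ∑ l ∈ T, μ i0 l * a l = μ i0 i0 * a i0 := by
      refine Finset.sum_eq_single_of_mem i0 hi0 fun l hl hne => absurd (hcon l hl) hne
    have h2 := hrel i0 hi0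
    rw [h1] at h2
    have h3 := Nat.eq_of_mul_eq_mul_right (ha i0) h2
    have h4 := hμlt i0 (hTS hi0)
    omega
  obtain ⟨p, q, hpq⟩ : ∃ p q : ℤ, p * a i0 + q * a i1 = 1 := by
    have h1 : IsCoprime (a i0 : ℤ) (a i1 : ℤ) := Nat.isCoprime_iff_coprime.2 (hcop i0 i1 hne1.symm)
    exact h1
  have hz : ∑ i ∈ T, ((if i = i0 then p else 0) + if i = i1 then q else 0) * (a i : ℤ) = 1 := by
    simp only [add_mul, Finset.sum_add_distrib, ite_mul, zero_mul]
    rw [Finset.sum_ite_eq' T i0, Finset.sum_ite_eq' T i1, if_pos hi0, if_pos hi1]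
    exact hpq
  have hMa : ∀ i, ((M i : ℤ) - 1) * a i = (D i : ℤ) - a i := by
    intro i
    have h1 : (M i : ℤ) * a i = D i := by exact_mod_cast (hM i).1
    rw [sub_mul, h1, one_mul]
  have hF : ∑ i ∈ T.erase i0, ((M i : ℤ) - 1) * a i - a i0 =
      ∑ i ∈ T, ((D i : ℤ) - a i) - D i0 := by
    rw [← Finset.add_sum_erase T (fun i => (D i : ℤ) - a i) hi0,
      Finset.sum_congr rfl fun i _ => hMa i]
    ring
  have hTsum := hsumle T
  have hD0 : (0 : ℤ) < D i0 := by exact_mod_cast hDpos i0
  obtain ⟨t, ht⟩ := ratio (T := T) (a := a) (m := M) (lam := μ) (i0 := i0)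
    (z := fun i => (if i = i0 then p else 0) + if i = i1 then q else 0) (e := e)
    (v := fun i => algebraMap ℂ B (v i)) (y := y) hi0 (fun i _ => ha i) hrel hreach hz
    (by rw [hF]; linarith)
    (fun i hi _ => by
      rw [hF]
      have h1 : (M i : ℤ) * a i = D i := by exact_mod_cast (hM i).1
      have h2 : (D i : ℤ) ≤ D i0 := by exact_mod_cast hmax i hi
      rw [h1]
      linarith)
    (fun i hi => by
      rw [hF]
      have h2 : (D i : ℤ) ≤ D i0 := by exact_mod_cast hmax i hi
      have h3 : (a i : ℤ) ≤ D i := by exact_mod_cast haD i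
      linarith)
    (fun i hi => hunit i (hTS hi)) hmono
  refine ⟨t, fun l hl => ?_⟩
  apply ht l
  rw [hF]
  have h3 : (a l : ℤ) ≤ D l := by exact_mod_cast haD l
  by_cases hlT : l ∈ T
  · have h2 : (D l : ℤ) ≤ D i0 := by exact_mod_cast hmax l hlT
    linarith
  · rcases hl with hl | hl
    · rw [hl]
      push_cast
      linarith
    · have h1 := hsumle (insert l T)
      rw [Finset.sum_insert hlT] at h1
      have h2 : (2 : ℤ) * a l ≤ D l := by exact_mod_cast hl
      linarith

end Pool.Agent.Run7.h72.WF
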